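import Pool.Agent.N844.QP.FrobV

/-!
The `L`-function of the middle cohomology of an intersection of two quadrics in `P⁵` over a number
field.
-/

set_option autoImplicit false

namespace Pool.Agent.N844.QP

open Finset Matrix NumberField IsDedekindDomain
open Pool.Agent.H82R3.EK (luc luc_eq card_points)
open scoped Classical

/-- the number of elements of the residue field -/
noncomputable def qv (K : Type) [Field K] (v : HeightOneSpectrum (𝓞 K)) : ℕ :=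
  Nat.card (𝓞 K ⧸ v.asIdeal)

/-- the trace of Frobenius of `y² = x³ + a x + b` -/
noncomputable def av (K : Type) [Field K] (a b : ℤ) (v : HeightOneSpectrum (𝓞 K)) : ℤ :=
  (qv K v : ℤ) - Nat.card {z : (𝓞 K ⧸ v.asIdeal) × (𝓞 K ⧸ v.asIdeal) //
    z.2 ^ 2 = z.1 ^ 3 + (a : 𝓞 K ⧸ v.asIdeal) * z.1 + (b : 𝓞 K ⧸ v.asIdeal)}

/-- `ω` are the eigenvalues of Frobenius at `v` on the third cohomology -/
def IsFrobV (K : Type) [Field K] (A B : Matrix (Fin 6) (Fin 6) ℤ) (v : HeightOneSpectrum (𝓞 K))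
    (ω : Fin 4 → ℂ) : Prop :=
  (∀ j, ‖ω j‖ = (qv K v : ℝ) ^ ((3 : ℝ) / 2)) ∧
    ∀ (k : Type) [Field k] [Fintype k] [Algebra (𝓞 K ⧸ v.asIdeal) k] (r : ℕ),
      Fintype.card k = qv K v ^ r →
      (numP (A.map (Int.castRingHom k)) (B.map (Int.castRingHom k)) : ℂ) =
        1 + (qv K v : ℂ) ^ r + (qv K v : ℂ) ^ (2 * r) + (qv K v : ℂ) ^ (3 * r) - ∑ j, ω j ^ r

variable {K : Type} [Field K] [NumberField K]

/-- the residue characteristic and the residue degree -/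
theorem place (v : HeightOneSpectrum (𝓞 K)) : ∃ p f : ℕ, p.Prime ∧ f ≠ 0 ∧ qv K v = p ^ f ∧
    CharP (𝓞 K ⧸ v.asIdeal) p := by
  have hm : v.asIdeal.IsMaximal := v.isMaximal
  let _ : Field (𝓞 K ⧸ v.asIdeal) := Ideal.Quotient.field v.asIdeal
  have hfin : Finite (𝓞 K ⧸ v.asIdeal) := Ideal.finiteQuotientOfFreeOfNeBot v.asIdeal v.ne_bot
  let _ : Fintype (𝓞 K ⧸ v.asIdeal) := Fintype.ofFinite _
  obtain ⟨p, hp⟩ := CharP.exists (𝓞 K ⧸ v.asIdeal)
  obtain ⟨n, h1, h2⟩ := FiniteField.card (𝓞 K ⧸ v.asIdeal) p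
  refine ⟨p, n, h1, n.pos.ne', ?_, hp⟩
  unfold qv
  rw [Nat.card_eq_fintype_card, h2]

theorem not_dvd_of_not_mem {v : HeightOneSpectrum (𝓞 K)} {p : ℕ} (hp : CharP (𝓞 K ⧸ v.asIdeal) p)
    {M : ℤ} (h : ((M : ℤ) : 𝓞 K) ∉ v.asIdeal) : ¬ (p : ℤ) ∣ M := by
  intro h1
  apply h
  rw [← Ideal.Quotient.eq_zero_iff_mem, map_intCast]
  exact (CharP.intCast_eq_zero_iff (𝓞 K ⧸ v.asIdeal) p M).2 h1

theorem av_eq {v : HeightOneSpectrum (𝓞 K)} {p f : ℕ} [Fact p.Prime] (hq : qv K v = p ^ f)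
    (hp : CharP (𝓞 K ⧸ v.asIdeal) p) {n : ℤ} (h : ¬ (p : ℤ) ∣ 30 * n) :
    av K (aE n) (bE n) v = luc (ap n p) p f := by
  have hm : v.asIdeal.IsMaximal := v.isMaximal
  let _ : Field (𝓞 K ⧸ v.asIdeal) := Ideal.Quotient.field v.asIdeal
  have hfin : Finite (𝓞 K ⧸ v.asIdeal) := Ideal.finiteQuotientOfFreeOfNeBot v.asIdeal v.ne_bot
  let _ : Fintype (𝓞 K ⧸ v.asIdeal) := Fintype.ofFinite _
  have hc : Fintype.card (𝓞 K ⧸ v.asIdeal) = p ^ f := by
    rw [← Nat.card_eq_fintype_card]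
    exact hq
  have h1 := av_luc h (𝓞 K ⧸ v.asIdeal) f hc
  rw [← h1, hc, ← hq]
  rfl

/-- the factor of an elliptic curve -/
noncomputable def denV (K : Type) [Field K] (n : ℤ) (v : HeightOneSpectrum (𝓞 K)) (s : ℂ) : ℂ :=
  1 - (av K (aE n) (bE n) v : ℂ) * (qv K v : ℂ) ^ (-s) + (qv K v : ℂ) ^ (1 - 2 * s)

theorem denV_eq {v : HeightOneSpectrum (𝓞 K)} {p f : ℕ} [Fact p.Prime] (hq : qv K v = p ^ f)
    (hp : CharP (𝓞 K ⧸ v.asIdeal) p) {n : ℤ} (h : ¬ (p : ℤ) ∣ 30 * n) (s : ℂ) :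
    denV K n v s = denQ n p f s := by
  unfold denV denQ
  rw [av_eq hq hp h, hq]

theorem frobV {n n' m : ℤ} {A B : Matrix (Fin 6) (Fin 6) ℤ} (hAB : IsPencil n n' m A B)
    {v : HeightOneSpectrum (𝓞 K)} (h : ((30 * (n * n' * m) : ℤ) : 𝓞 K) ∉ v.asIdeal) :
    ∃ ω : Fin 4 → ℂ, IsFrobV K A B v ω ∧ ∀ s : ℂ, ∏ j, (1 - ω j * (qv K v : ℂ) ^ (-s)) =
      denV K n v (s - 1) * denV K n' v (s - 1) := by
  obtain ⟨p, f, hp, hf, hq, hc⟩ := place v
  have : Fact p.Prime := ⟨hp⟩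
  have h' := not_dvd_of_not_mem hc h
  have hn : ¬ (p : ℤ) ∣ 30 * n := fun h0 => h' (by
    rw [show 30 * (n * n' * m) = 30 * n * (n' * m) by ring]
    exact dvd_mul_of_dvd_left h0 _)
  have hn' : ¬ (p : ℤ) ∣ 30 * n' := fun h0 => h' (by
    rw [show 30 * (n * n' * m) = 30 * n' * (n * m) by ring]
    exact dvd_mul_of_dvd_left h0 _)
  obtain ⟨ω, ⟨w1, w2⟩, w3⟩ := frobQ hAB h' f
  refine ⟨ω, ⟨fun j => ?_, fun k _ _ _ r hr => ?_⟩, fun s => ?_⟩
  · rw [w1 j, hq]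
  · have hcp : CharP k p := by
      refine charP_of_injective_algebraMap ?_ p (R := 𝓞 K ⧸ v.asIdeal)
      have hm : v.asIdeal.IsMaximal := v.isMaximal
      let _ : Field (𝓞 K ⧸ v.asIdeal) := Ideal.Quotient.field v.asIdeal
      exact RingHom.injective (algebraMap (𝓞 K ⧸ v.asIdeal) k)
    have h1 := w2 k r (by rw [hr, hq])
    rw [h1, hq]
  · rw [denV_eq hq hc hn, denV_eq hq hc hn', ← w3 s, hq]

theorem denV_ne {v : HeightOneSpectrum (𝓞 K)} {n : ℤ} (h : ((30 * n : ℤ) : 𝓞 K) ∉ v.asIdeal) {s : ℂ}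
    (hs : 1 / 2 < s.re) : denV K n v s ≠ 0 := by
  obtain ⟨p, f, hp, hf, hq, hc⟩ := place v
  have : Fact p.Prime := ⟨hp⟩
  have h' := not_dvd_of_not_mem hc h
  rw [denV_eq hq hc h']
  exact denQ_ne hp h' hf hs

theorem denV_differentiable {v : HeightOneSpectrum (𝓞 K)} {n : ℤ}
    (h : ((30 * n : ℤ) : 𝓞 K) ∉ v.asIdeal) : Differentiable ℂ (denV K n v) := by
  obtain ⟨p, f, hp, hf, hq, hc⟩ := place v
  have : Fact p.Prime := ⟨hp⟩
  have h' := not_dvd_of_not_mem hc h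
  have e : denV K n v = denQ n p f := funext fun s => denV_eq hq hc h' s
  rw [e]
  exact denQ_differentiable n hp f

theorem mem_of_dvd {v : HeightOneSpectrum (𝓞 K)} {M N : ℤ} (h : M ∣ N)
    (hM : ((M : ℤ) : 𝓞 K) ∈ v.asIdeal) : ((N : ℤ) : 𝓞 K) ∈ v.asIdeal := by
  obtain ⟨c, rfl⟩ := h
  push_cast
  exact Ideal.mul_mem_right _ _ hM

/-- the places dividing a nonzero integer -/
theorem finite_places {M : ℤ} (hM : M ≠ 0) :
    {v : HeightOneSpectrum (𝓞 K) | ((M : ℤ) : 𝓞 K) ∈ v.asIdeal}.Finite := by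
  have h0 : Ideal.span {((M : ℤ) : 𝓞 K)} ≠ 0 := by
    rw [Ne, Ideal.zero_eq_bot, Ideal.span_singleton_eq_bot]
    exact_mod_cast hM
  refine (Ideal.finite_factors h0).subset fun v hv => ?_
  simp only [Set.mem_setOf_eq] at hv ⊢
  rw [Ideal.dvd_span_singleton]
  exact hv

/-- the `L`-function of the third cohomology over a number field -/
theorem eulerK {n n' m D : ℤ} (hn : n ≠ 0) (hn' : n' ≠ 0) (hm : m ≠ 0) (hD : D ≠ 0)
    {A B : Matrix (Fin 6) (Fin 6) ℤ} (hAB : IsPencil n n' m A B) {F : ℂ → ℂ}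
    (hF : Differentiable ℂ F)
    (hprod : ∀ s : ℂ, (3 : ℝ) / 2 < s.re → HasProd (fun v : HeightOneSpectrum (𝓞 K) =>
      if ((30 * (n * n') * D : ℤ) : 𝓞 K) ∈ v.asIdeal then 1 else
        (denV K n v s)⁻¹ * (denV K n' v s)⁻¹) (F s)) (h1 : F 1 ≠ 0) :
    ∃ ω : HeightOneSpectrum (𝓞 K) → Fin 4 → ℂ,
      (∀ v, ((30 * (n * n' * m) * D : ℤ) : 𝓞 K) ∉ v.asIdeal → IsFrobV K A B v (ω v)) ∧
      ∃ L : ℂ → ℂ, Differentiable ℂ L ∧
        (∀ s : ℂ, (5 : ℝ) / 2 < s.re →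
          HasProd (fun v : HeightOneSpectrum (𝓞 K) =>
            if ((30 * (n * n' * m) * D : ℤ) : 𝓞 K) ∈ v.asIdeal then 1 else
            ∏ j, (1 - ω v j * (qv K v : ℂ) ^ (-s))⁻¹) (L s)) ∧ L 2 ≠ 0 := by
  have hM : 30 * (n * n' * m) * D ≠ 0 :=
    mul_ne_zero (mul_ne_zero (by norm_num) (mul_ne_zero (mul_ne_zero hn hn') hm)) hD
  set big : HeightOneSpectrum (𝓞 K) → Prop := fun v =>
    ((30 * (n * n' * m) * D : ℤ) : 𝓞 K) ∈ v.asIdeal with hbig
  set sml : HeightOneSpectrum (𝓞 K) → Prop := fun v =>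
    ((30 * (n * n') * D : ℤ) : 𝓞 K) ∈ v.asIdeal with hsml
  have hsb : ∀ v, sml v → big v := fun v hv => mem_of_dvd ⟨m, by ring⟩ hv
  have hfin : {v | big v ∧ ¬ sml v}.Finite := (finite_places hM).subset fun v hv => hv.1
  set S : Finset (HeightOneSpectrum (𝓞 K)) := hfin.toFinset with hS
  have hmem : ∀ v, v ∈ S ↔ big v ∧ ¬ sml v := fun v => by rw [hS]; simp
  have g1 : ∀ v, ¬ sml v → ((30 * n : ℤ) : 𝓞 K) ∉ v.asIdeal := fun v hv h0 =>
    hv (mem_of_dvd ⟨n' * D, by ring⟩ h0)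
  have g2 : ∀ v, ¬ sml v → ((30 * n' : ℤ) : 𝓞 K) ∉ v.asIdeal := fun v hv h0 =>
    hv (mem_of_dvd ⟨n * D, by ring⟩ h0)
  set H : ℂ → ℂ := fun s => F s * ∏ v ∈ S, (denV K n v s * denV K n' v s) with hH
  have H1 : Differentiable ℂ H := by
    refine hF.mul (Differentiable.fun_finsetProd fun v hv => ?_)
    have h3 := ((hmem v).1 hv).2
    exact (denV_differentiable (g1 v h3)).mul (denV_differentiable (g2 v h3))
  have H2 : ∀ s : ℂ, (3 : ℝ) / 2 < s.re → HasProd (fun v : HeightOneSpectrum (𝓞 K) =>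
      if big v then 1 else (denV K n v s)⁻¹ * (denV K n' v s)⁻¹) (H s) := by
    intro s hs
    have hs2 : 1 / 2 < s.re := by linarith
    have h3 : HasProd (fun v => if v ∈ S then denV K n v s * denV K n' v s else 1)
        (∏ v ∈ S, (denV K n v s * denV K n' v s)) := by
      have h4 : HasProd (fun v => if v ∈ S then denV K n v s * denV K n' v s else 1)
          (∏ v ∈ S, if v ∈ S then denV K n v s * denV K n' v s else 1) :=
        hasProd_prod_of_ne_finset_one (fun v hv => if_neg hv)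
      have h5 : ∏ v ∈ S, (if v ∈ S then denV K n v s * denV K n' v s else 1) =
          ∏ v ∈ S, (denV K n v s * denV K n' v s) :=
        Finset.prod_congr rfl fun v hv => if_pos hv
      rw [h5] at h4
      exact h4
    have h4 := (hprod s hs).mul h3
    refine (congrArg (fun g => HasProd g (H s)) (funext fun v => ?_)).mp h4
    by_cases hb : sml v
    · rw [if_pos hb, if_pos (hsb v hb), if_neg (fun h => ((hmem v).1 h).2 hb), one_mul]
    · rw [if_neg hb]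
      by_cases hc : big v
      · rw [if_pos ((hmem v).2 ⟨hc, hb⟩), if_pos hc]
        have e1 := denV_ne (g1 v hb) hs2
        have e2 := denV_ne (g2 v hb) hs2
        field_simp
      · rw [if_neg (fun h => hc ((hmem v).1 h).1), if_neg hc, mul_one]
  have H3 : H 1 ≠ 0 := by
    refine mul_ne_zero h1 (Finset.prod_ne_zero_iff.2 fun v hv => ?_)
    have h3 := ((hmem v).1 hv).2
    exact mul_ne_zero (denV_ne (g1 v h3) (by norm_num)) (denV_ne (g2 v h3) (by norm_num))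
  have hex : ∀ v : HeightOneSpectrum (𝓞 K), ∃ ω : Fin 4 → ℂ, ¬ big v →
      (IsFrobV K A B v ω ∧ ∀ s : ℂ, ∏ j, (1 - ω j * (qv K v : ℂ) ^ (-s)) =
        denV K n v (s - 1) * denV K n' v (s - 1)) := by
    intro v
    by_cases hb : big v
    · exact ⟨fun _ => 0, fun h => absurd hb h⟩
    · have h3 : ((30 * (n * n' * m) : ℤ) : 𝓞 K) ∉ v.asIdeal := fun h0 =>
        hb (mem_of_dvd ⟨D, by ring⟩ h0)
      obtain ⟨ω, h⟩ := frobV hAB h3
      exact ⟨ω, fun _ => h⟩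
  choose ω hω using hex
  refine ⟨ω, fun v hv => (hω v hv).1, fun s => H (s - 1), ?_, ?_, ?_⟩
  · exact H1.comp (differentiable_id.sub_const 1)
  · intro s hs
    have hs1 : (3 : ℝ) / 2 < (s - 1).re := by
      rw [Complex.sub_re, Complex.one_re]
      linarith
    refine (congrArg (fun g => HasProd g (H (s - 1))) (funext fun v => ?_)).mp (H2 (s - 1) hs1)
    by_cases hv : big v
    · rw [if_pos hv, if_pos hv]
    · rw [if_neg hv, if_neg hv, Finset.prod_inv_distrib, (hω v hv).2 s, mul_inv]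
  · have : (2 : ℂ) - 1 = 1 := by norm_num
    simp only [this]
    exact H3

end Pool.Agent.N844.QP
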