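import Pool.Agent.N844.QP.Two

/-!
Integral pencils of quadrics in `P⁵` with a given discriminant, and their points over finite fields.
-/

set_option autoImplicit false

namespace Pool.Agent.N844.QP

open Finset Matrix Polynomial
open scoped LinearAlgebra.Projectivization
open Pool.Agent.H82R3.EK (luc luc_eq card_points)

/-- the pencils with the discriminant curve
`y² = 2 n (n n' x² - 1) (n n' x² - 25) (3 n n' x² + 125)` -/
structure IsPencil (n n' m : ℤ) (A B : Matrix (Fin 6) (Fin 6) ℤ) : Prop where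
  symA : A.IsSymm
  symB : B.IsSymm
  disc : ∀ x : ℤ, -(x • A - B).det = 2 * n * m ^ 2 * ((n * n' * x ^ 2 - 1) *
    (n * n' * x ^ 2 - 25) * (3 * (n * n') * x ^ 2 + 125))

/-- the discriminant polynomial -/
noncomputable def dsc {R : Type*} [CommRing R] (c d : R) : R[X] :=
  C (-c) * ((C d * X ^ 2 - 1) * (C d * X ^ 2 - 25) * (C (3 * d) * X ^ 2 + 125))

lemma dsc_eval {R : Type*} [CommRing R] (c d x : R) : (dsc c d).eval x =
    -c * ((d * x ^ 2 - 1) * (d * x ^ 2 - 25) * (3 * d * x ^ 2 + 125)) := by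
  have e25 : (25 : R[X]) = C 25 := (map_ofNat (C : R →+* R[X]) 25).symm
  have e125 : (125 : R[X]) = C 125 := (map_ofNat (C : R →+* R[X]) 125).symm
  unfold dsc
  rw [e25, e125]
  simp only [eval_add, eval_mul, eval_sub, eval_pow, eval_X, eval_C, eval_one]

lemma dsc_coeff {R : Type*} [CommRing R] (c d : R) : (dsc c d).coeff 6 = -c * (3 * d ^ 3) := by
  have e25 : (25 : R[X]) = C 25 := (map_ofNat (C : R →+* R[X]) 25).symm
  have e125 : (125 : R[X]) = C 125 := (map_ofNat (C : R →+* R[X]) 125).symm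
  have e : dsc c d = C (-c * (3 * d ^ 3)) * X ^ 6 + C (-c * (47 * d ^ 2)) * X ^ 4 +
      C (-c * (-3175 * d)) * X ^ 2 + C (-c * 3125) := by
    unfold dsc
    rw [e25, e125]
    simp only [C_mul, C_pow, C_neg]
    have e3 : (C (3 : R) : R[X]) = 3 := map_ofNat (C : R →+* R[X]) 3
    have f25 : (C (25 : R) : R[X]) = 25 := map_ofNat (C : R →+* R[X]) 25
    have f125 : (C (125 : R) : R[X]) = 125 := map_ofNat (C : R →+* R[X]) 125
    have f47 : (C (47 : R) : R[X]) = 47 := map_ofNat (C : R →+* R[X]) 47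
    have f3175 : (C (3175 : R) : R[X]) = 3175 := map_ofNat (C : R →+* R[X]) 3175
    have f3125 : (C (3125 : R) : R[X]) = 3125 := map_ofNat (C : R →+* R[X]) 3125
    rw [e3, f25, f125, f47, f3175, f3125]
    ring
  rw [e]
  simp only [coeff_add, coeff_C_mul, coeff_X_pow, coeff_C]
  norm_num

lemma dsc_map {R S : Type*} [CommRing R] [CommRing S] (f : R →+* S) (c d : R) :
    (dsc c d).map f = dsc (f c) (f d) := by
  unfold dsc
  simp only [Polynomial.map_mul, Polynomial.map_sub, Polynomial.map_add, Polynomial.map_pow,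
    Polynomial.map_neg, map_C, map_X, Polynomial.map_one, Polynomial.map_ofNat, map_neg, map_mul,
    map_ofNat]

lemma dp_map {N : ℕ} {R S : Type*} [CommRing R] [CommRing S] (f : R →+* S)
    (A B : Matrix (Fin N) (Fin N) R) : dp (A.map f) (B.map f) = (dp A B).map f := by
  unfold dp
  rw [← coe_mapRingHom, RingHom.map_det]
  congr 1
  refine Matrix.ext fun i j => ?_
  simp only [RingHom.mapMatrix_apply, map_apply, Matrix.sub_apply,
    Matrix.smul_apply, smul_eq_mul, coe_mapRingHom, Polynomial.map_sub, Polynomial.map_mul,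
    map_X, map_C]

lemma IsPencil.dp_eq {n n' m : ℤ} {A B : Matrix (Fin 6) (Fin 6) ℤ} (h : IsPencil n n' m A B) :
    dp A B = dsc (2 * n * m ^ 2) (n * n') := by
  apply Polynomial.funext
  intro x
  rw [dp_eval, dsc_eval]
  linear_combination - h.disc x

lemma dp_coeff {R : Type*} [CommRing R] (A B : Matrix (Fin 6) (Fin 6) R) :
    (dp A B).coeff 6 = A.det := by
  have h := Polynomial.coeff_det_X_add_C_card A (-B)
  rw [Fintype.card_fin] at h
  have e : (X : R[X]) • A.map C - B.map C = (X : R[X]) • A.map C + (-B).map C := by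
    refine Matrix.ext fun i j => ?_
    simp only [Matrix.sub_apply, Matrix.add_apply, Matrix.map_apply, Matrix.neg_apply, map_neg]
    exact sub_eq_add_neg _ _
  unfold dp
  rw [e]
  exact h

section field

variable {k : Type*} [Field k] {n n' m : ℤ} {A B : Matrix (Fin 6) (Fin 6) ℤ}

lemma IsPencil.dpk (h : IsPencil n n' m A B) :
    dp (A.map (Int.castRingHom k)) (B.map (Int.castRingHom k)) =
      dsc (2 * (n : k) * (m : k) ^ 2) ((n : k) * (n' : k)) := by
  rw [dp_map, h.dp_eq, dsc_map]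
  simp

lemma IsPencil.detk (h : IsPencil n n' m A B) :
    (A.map (Int.castRingHom k)).det =
      -(2 * (n : k) * (m : k) ^ 2) * (3 * ((n : k) * (n' : k)) ^ 3) := by
  rw [← dp_coeff (A.map (Int.castRingHom k)) (B.map (Int.castRingHom k)), h.dpk, dsc_coeff]

lemma IsPencil.symk (h : IsPencil n n' m A B) :
    (A.map (Int.castRingHom k)).IsSymm ∧ (B.map (Int.castRingHom k)).IsSymm :=
  ⟨h.symA.map _, h.symB.map _⟩

/-- smoothness -/
theorem IsPencil.smooth (h : IsPencil n n' m A B) (h2 : (2 : k) ≠ 0) (h3 : (3 : k) ≠ 0)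
    (h5 : (5 : k) ≠ 0) (hn : (n : k) ≠ 0) (hn' : (n' : k) ≠ 0) (hm : (m : k) ≠ 0)
    {y : Fin 6 → k} (hy : y ≠ 0) (h6 : qf (A.map (Int.castRingHom k)) y = 0)
    (h7 : qf (B.map (Int.castRingHom k)) y = 0) :
    LinearIndependent k ![A.map (Int.castRingHom k) *ᵥ y, B.map (Int.castRingHom k) *ᵥ y] := by
  have hc : 2 * (n : k) * (m : k) ^ 2 ≠ 0 := mul_ne_zero (mul_ne_zero h2 hn) (pow_ne_zero _ hm)
  have hd : (n : k) * (n' : k) ≠ 0 := mul_ne_zero hn hn'
  refine Pool.Agent.N844.QP.smooth h.symk.1 h.symk.2 ?_ ?_ hy h6 h7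
  · rw [h.detk]
    exact mul_ne_zero (neg_ne_zero.2 hc) (mul_ne_zero h3 (pow_ne_zero _ hd))
  · intro x hx
    rw [h.dpk] at hx ⊢
    exact derivative_gg _ _ x hx h2 h3 h5 hc hd

/-- the number of points -/
theorem IsPencil.numP [Fintype k] [DecidableEq k] (h : IsPencil n n' m A B) (h2 : (2 : k) ≠ 0)
    (h3 : (3 : k) ≠ 0) (h5 : (5 : k) ≠ 0) (hn : (n : k) ≠ 0) (hn' : (n' : k) ≠ 0)
    (hm : (m : k) ≠ 0) :
    (numP (A.map (Int.castRingHom k)) (B.map (Int.castRingHom k)) : ℤ) =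
      1 + Fintype.card k + (Fintype.card k : ℤ) ^ 2 + (Fintype.card k : ℤ) ^ 3 +
        Fintype.card k * (SE (-(n : k)) + SE (-(n' : k))) := by
  classical
  have hc : 2 * (n : k) * (m : k) ^ 2 ≠ 0 := mul_ne_zero (mul_ne_zero h2 hn) (pow_ne_zero _ hm)
  have hd : (n : k) * (n' : k) ≠ 0 := mul_ne_zero hn hn'
  have hk : ringChar k ≠ 2 := by
    intro h0
    apply h2
    have := ringChar.spec k 2
    rw [h0] at this
    exact_mod_cast this.2 dvd_rfl
  set Ak := A.map (Int.castRingHom k) with hAk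
  set Bk := B.map (Int.castRingHom k) with hBk
  have hA0 : Ak.det ≠ 0 := by
    rw [h.detk]
    exact mul_ne_zero (neg_ne_zero.2 hc) (mul_ne_zero h3 (pow_ne_zero _ hd))
  have hcount := count_sym hk 1 Ak Bk h.symk.1 h.symk.2 hA0 (by
    intro x hx
    rw [h.dpk] at hx ⊢
    exact derivative_gg _ _ x hx h2 h3 h5 hc hd)
  have hs : (∑ x : k, quadraticChar k ((-1) ^ (1 + 2) * (dp Ak Bk).eval x) +
      quadraticChar k ((-1) ^ (1 + 2) * Ak.det)) = SE (-(n : k)) + SE (-(n' : k)) := by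
    have hm5 : (5 / (m : k)) ≠ 0 := div_ne_zero h5 hm
    have e1 : ∀ x : k, quadraticChar k ((-1) ^ (1 + 2) * (dp Ak Bk).eval x) =
        quadraticChar k (-50 * (-(n : k)) * gg ((n : k) * (n' : k)) x) := by
      intro x
      rw [h.dpk, dsc_eval, ← chi_sq hm5 ((-1) ^ (1 + 2) * _)]
      congr 1
      unfold gg
      field_simp
      ring
    have e2 : quadraticChar k ((-1) ^ (1 + 2) * Ak.det) =
        quadraticChar k (-150 * (-(n : k) * ((n : k) * (n' : k)))) := by
      have hz : (5 / ((m : k) * ((n : k) * (n' : k)))) ≠ 0 := div_ne_zero h5 (mul_ne_zero hm hd)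
      rw [h.detk, ← chi_sq hz ((-1) ^ (1 + 2) * _)]
      congr 1
      field_simp
      ring
    simp_rw [e1]
    rw [e2, sum_gg hk h3 h5 (neg_ne_zero.2 hn) hd]
    congr 1
    rw [show -(n : k) * ((n : k) * (n' : k)) = (n : k) ^ 2 * -(n' : k) by ring, SE_sq hn]
  rw [hs] at hcount
  have e2 : ((univ.filter fun y : Fin 6 → k => qf Bk y = 0 ∧ qf Ak y = 0).card : ℤ) =
      (Nat.card {v : Fin 6 → k // v ≠ 0 ∧ (qf Ak v = 0 ∧ qf Bk v = 0)} : ℤ) + 1 := by
    have e4 : (univ.filter fun y : Fin 6 → k => qf Bk y = 0 ∧ qf Ak y = 0) =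
        insert 0 (univ.filter fun y : Fin 6 → k => y ≠ 0 ∧ (qf Ak y = 0 ∧ qf Bk y = 0)) := by
      ext y
      simp only [Finset.mem_filter, Finset.mem_univ, true_and, Finset.mem_insert]
      by_cases hy : y = 0
      · subst hy
        simp [qf]
      · simp [hy, and_comm]
    rw [e4, Finset.card_insert_of_notMem (by simp)]
    push_cast
    congr 2
    rw [Nat.card_eq_fintype_card, Fintype.card_subtype]
  have hcone : ∀ (c : kˣ) (v : Fin 6 → k), (qf Ak (c • v) = 0 ∧ qf Bk (c • v) = 0) ↔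
      (qf Ak v = 0 ∧ qf Bk v = 0) := by
    intro c v
    rw [Units.smul_def, qf_smul, qf_smul]
    have hc0 : (c : k) ^ 2 ≠ 0 := pow_ne_zero 2 c.ne_zero
    simp [hc0]
  have hcount' : ((univ.filter fun y : Fin 6 → k => qf Bk y = 0 ∧ qf Ak y = 0).card : ℤ) =
      (Fintype.card k : ℤ) ^ 4 + (Fintype.card k : ℤ) * ((Fintype.card k : ℤ) - 1) *
        (SE (-(n : k)) + SE (-(n' : k))) := by
    have := hcount
    rw [pow_one] at this
    exact this
  rw [e2, proj_card (k := k) (fun v => qf Ak v = 0 ∧ qf Bk v = 0) hcone] at hcount'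
  have hq : 1 < Fintype.card k := Fintype.one_lt_card
  have hq1 : ((Fintype.card k : ℤ) - 1) ≠ 0 := by
    have : (1 : ℤ) < Fintype.card k := by exact_mod_cast hq
    omega
  push_cast [Nat.cast_sub hq.le] at hcount'
  apply mul_left_cancel₀ hq1
  unfold Pool.Agent.N844.QP.numP
  linear_combination hcount'

end field

end Pool.Agent.N844.QP
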