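import Pool.Agent.N844.QP.Points

/-!
The eigenvalues of Frobenius on the middle cohomology of the threefolds, and the Euler product.
-/

set_option autoImplicit false

namespace Pool.Agent.N844.QP

open Finset
open Pool.Agent.H82R3.EK (luc luc_eq card_points)

/-- first coefficient of the elliptic curve -/
def aE (n : ℤ) : ℤ := -12987 * n ^ 2

/-- second coefficient of the elliptic curve -/
def bE (n : ℤ) : ℤ := 263466 * n ^ 3

lemma disc_eq (n : ℤ) : 4 * (aE n) ^ 3 + 27 * (bE n) ^ 2 = -(3600 ^ 2 * 9 ^ 6 * n ^ 6) := by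
  unfold aE bE
  ring

lemma disc_eq' (n : ℤ) : 2 * (-4 * (aE n) ^ 3 - 27 * (bE n) ^ 2) =
    2 * (3600 ^ 2 * 9 ^ 6 * n ^ 6) := by
  unfold aE bE
  ring

/-- the good primes -/
lemma good_iff {p : ℕ} (hp : p.Prime) (n : ℤ) :
    ¬ (p : ℤ) ∣ 2 * (-4 * (aE n) ^ 3 - 27 * (bE n) ^ 2) ↔ ¬ (p : ℤ) ∣ 30 * n := by
  rw [disc_eq', not_iff_not]
  have hp' : Prime (p : ℤ) := Nat.prime_iff_prime_int.1 hp
  have h30 : (30 : ℤ) * n = 2 * (3 * (5 * n)) := by ring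
  have hbig : (2 : ℤ) * (3600 ^ 2 * 9 ^ 6 * n ^ 6) = 2 ^ 9 * (3 ^ 16 * (5 ^ 4 * n ^ 6)) := by ring
  rw [h30, hbig]
  simp only [hp'.dvd_mul]
  constructor
  · rintro (h | h | h | h)
    · exact Or.inl (hp'.dvd_of_dvd_pow h)
    · exact Or.inr (Or.inl (hp'.dvd_of_dvd_pow h))
    · exact Or.inr (Or.inr (Or.inl (hp'.dvd_of_dvd_pow h)))
    · exact Or.inr (Or.inr (Or.inr (hp'.dvd_of_dvd_pow h)))
  · rintro (h | h | h | h)
    · exact Or.inl (dvd_pow h (by norm_num))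
    · exact Or.inr (Or.inl (dvd_pow h (by norm_num)))
    · exact Or.inr (Or.inr (Or.inl (dvd_pow h (by norm_num))))
    · exact Or.inr (Or.inr (Or.inr (dvd_pow h (by norm_num))))

/-- the trace of Frobenius of the elliptic curve -/
noncomputable def ap (n : ℤ) (p : ℕ) : ℤ :=
  (p : ℤ) - Nat.card {x : ZMod p × ZMod p //
    x.2 ^ 2 = x.1 ^ 3 + (aE n : ZMod p) * x.1 + (bE n : ZMod p)}

lemma not_dvd {p : ℕ} {n : ℤ} (h : ¬ (p : ℤ) ∣ 30 * n) :
    ¬ (p : ℤ) ∣ 2 ∧ ¬ (p : ℤ) ∣ 3 ∧ ¬ (p : ℤ) ∣ 5 ∧ ¬ (p : ℤ) ∣ n := by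
  refine ⟨fun h1 => h ?_, fun h1 => h ?_, fun h1 => h ?_, fun h1 => h (dvd_mul_of_dvd_right h1 _)⟩
  · exact dvd_mul_of_dvd_left (h1.trans (by norm_num)) _
  · exact dvd_mul_of_dvd_left (h1.trans (by norm_num)) _
  · exact dvd_mul_of_dvd_left (h1.trans (by norm_num)) _

/-- the points over the finite fields -/
theorem numX_pow {p : ℕ} [Fact p.Prime] {n : ℤ} (h : ¬ (p : ℤ) ∣ 30 * n)
    (k : Type) [Field k] [Fintype k] [CharP k p] (r : ℕ) (hr : Fintype.card k = p ^ r) :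
    (numX (n : k) : ℤ) = 1 + (p : ℤ) ^ r + ((p : ℤ) ^ r) ^ 2 + ((p : ℤ) ^ r) ^ 3 -
      2 * (p : ℤ) ^ r * luc (ap n p) p r := by
  classical
  obtain ⟨h2, h3, h5, hn⟩ := not_dvd h
  have hp : p.Prime := Fact.out
  have c0 : ∀ m : ℤ, ¬ (p : ℤ) ∣ m → (m : k) ≠ 0 := fun m hm h0 =>
    hm ((CharP.intCast_eq_zero_iff k p m).1 h0)
  have k2 : (2 : k) ≠ 0 := by simpa using c0 2 h2
  have k3 : (3 : k) ≠ 0 := by simpa using c0 3 h3
  have k5 : (5 : k) ≠ 0 := by simpa using c0 5 h5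
  have kn : (n : k) ≠ 0 := c0 n hn
  have h1 := numX_eq k2 k3 k5 kn
  have hk : ringChar k ≠ 2 := by
    intro h0
    apply k2
    have := ringChar.spec k 2
    rw [h0] at this
    exact_mod_cast this.2 dvd_rfl
  let _ : Algebra (ZMod p) k := ZMod.algebra k p
  have hp2 : p ≠ 2 := by
    rintro rfl
    exact h2 dvd_rfl
  have hD : ¬ (p : ℤ) ∣ 4 * (aE n) ^ 3 + 27 * (bE n) ^ 2 := by
    intro h0
    apply (good_iff hp n).2 h
    have : 2 * (-4 * (aE n) ^ 3 - 27 * (bE n) ^ 2) =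
      -2 * (4 * (aE n) ^ 3 + 27 * (bE n) ^ 2) := by ring
    rw [this]
    exact dvd_mul_of_dvd_right h0 _
  have h4 := W165.CE.points_ext hp2 (aE n) (bE n) hD (k := k)
  have hfr : Module.finrank (ZMod p) k = r := by
    have h6 := Module.card_eq_pow_finrank (K := ZMod p) (V := k)
    rw [hr, ZMod.card] at h6
    exact (Nat.pow_right_injective hp.two_le h6).symm
  rw [hfr] at h4
  have h5' := card_points hk (fun x : k => x ^ 3 + (aE n : k) * x + (bE n : k))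
  rw [h5'] at h4
  have e1 : ∀ t : k, t ^ 3 + (aE n : k) * t + (bE n : k) =
      t ^ 3 + (-12987 * (n : k) ^ 2) * t + 263466 * (n : k) ^ 3 := by
    intro t
    unfold aE bE
    push_cast
    ring
  simp_rw [e1] at h4
  have e2 : ∑ t : k, quadraticChar k (t ^ 3 + (-12987 * (n : k) ^ 2) * t + 263466 * (n : k) ^ 3) =
      - luc (ap n p) p r := by
    have h7 : luc (ap n p) p r = luc ((p : ℤ) - Nat.card {x : ZMod p × ZMod p //
        x.2 ^ 2 = x.1 ^ 3 + (aE n : ZMod p) * x.1 + (bE n : ZMod p)}) p r := rfl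
    rw [h7]
    linarith
  rw [h1, e2, hr]
  push_cast
  ring

/-- the eigenvalues of Frobenius -/
theorem eigen {p : ℕ} [Fact p.Prime] {n : ℤ} (h : ¬ (p : ℤ) ∣ 30 * n) :
    ∃ α β : ℂ, α + β = ap n p ∧ α * β = p ∧ ‖α‖ = Real.sqrt p ∧ ‖β‖ = Real.sqrt p := by
  classical
  obtain ⟨h2, h3, h5, hn⟩ := not_dvd h
  have hp : p.Prime := Fact.out
  have hk : ringChar (ZMod p) ≠ 2 := by
    rw [ZMod.ringChar_zmod_n]
    rintro rfl
    exact h2 dvd_rfl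
  have hH := W165.CE.hasse hk (aE n : ZMod p) (bE n : ZMod p)
  rw [ZMod.card] at hH
  have hH2 : |(ap n p : ℝ)| ≤ 2 * Real.sqrt p := by
    unfold ap
    push_cast at hH ⊢
    exact hH
  have hp0 : (0 : ℝ) ≤ p := Nat.cast_nonneg p
  have hdisc : (ap n p : ℝ) ^ 2 ≤ 4 * p := by
    have := sq_le_sq' (neg_le_of_abs_le hH2) (le_of_abs_le hH2)
    rw [mul_pow, Real.sq_sqrt hp0] at this
    linarith
  set s : ℝ := Real.sqrt (4 * p - (ap n p : ℝ) ^ 2) with hs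
  have hs2 : s ^ 2 = 4 * p - (ap n p : ℝ) ^ 2 := Real.sq_sqrt (by linarith)
  have hnorm : ∀ e : ℝ, e ^ 2 = 1 →
      ‖((ap n p : ℝ) / 2 : ℂ) + ((e * s / 2 : ℝ) : ℂ) * Complex.I‖ = Real.sqrt p := by
    intro e he
    have : (((ap n p : ℝ) / 2 : ℂ)) = (((ap n p : ℝ) / 2 : ℝ) : ℂ) := by push_cast; ring
    rw [this, Complex.norm_add_mul_I]
    congr 1
    have : ((ap n p : ℝ) / 2) ^ 2 + (e * s / 2) ^ 2 = ((ap n p : ℝ) ^ 2 + e ^ 2 * s ^ 2) / 4 := by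
      ring
    rw [this, he, hs2]
    ring
  refine ⟨((ap n p : ℝ) / 2 : ℂ) + ((1 * s / 2 : ℝ) : ℂ) * Complex.I,
    ((ap n p : ℝ) / 2 : ℂ) + ((-1 * s / 2 : ℝ) : ℂ) * Complex.I, ?_, ?_,
    hnorm 1 (by norm_num), hnorm (-1) (by norm_num)⟩
  · push_cast
    ring
  · have hI : Complex.I ^ 2 = -1 := Complex.I_sq
    have hs3 : (s : ℂ) ^ 2 = 4 * p - (ap n p : ℂ) ^ 2 := by
      have := congrArg (fun z : ℝ => (z : ℂ)) hs2
      push_cast at this
      exact this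
    push_cast
    have : ((ap n p : ℂ) / 2 + 1 * (s : ℂ) / 2 * Complex.I) *
        ((ap n p : ℂ) / 2 + -1 * (s : ℂ) / 2 * Complex.I) =
        (ap n p : ℂ) ^ 2 / 4 - (s : ℂ) ^ 2 / 4 * Complex.I ^ 2 := by ring
    rw [this, hI, hs3]
    ring

/-- `ω` are the eigenvalues of Frobenius at `p` on the third cohomology of the threefold: this
determines `ω` up to the order -/
def IsFrob (n : ℤ) (p : ℕ) (ω : Fin 4 → ℂ) : Prop :=
  (∀ j, ‖ω j‖ = (p : ℝ) ^ ((3 : ℝ) / 2)) ∧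
    ∀ (k : Type) [Field k] [Fintype k] [CharP k p] (r : ℕ), Fintype.card k = p ^ r →
      (numX (n : k) : ℂ) = 1 + (p : ℂ) ^ r + (p : ℂ) ^ (2 * r) + (p : ℂ) ^ (3 * r) -
        ∑ j, ω j ^ r

theorem frob_exists {p : ℕ} [Fact p.Prime] {n : ℤ} (h : ¬ (p : ℤ) ∣ 30 * n) :
    ∃ ω : Fin 4 → ℂ, IsFrob n p ω ∧ ∀ z : ℂ, ∏ j, (1 - ω j * z) =
      (1 - ap n p * p * z + (p : ℂ) ^ 3 * z ^ 2) ^ 2 := by
  obtain ⟨α, β, h1, h2, h3, h4⟩ := eigen h
  have hp : p.Prime := Fact.out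
  have hp0 : (0 : ℝ) < p := by exact_mod_cast hp.pos
  have hpw : (p : ℝ) * Real.sqrt p = (p : ℝ) ^ ((3 : ℝ) / 2) := by
    rw [Real.sqrt_eq_rpow, show ((3 : ℝ) / 2) = 1 + 1 / 2 by norm_num, Real.rpow_add hp0,
      Real.rpow_one]
  refine ⟨![p * α, p * β, p * α, p * β], ⟨?_, ?_⟩, ?_⟩
  · intro j
    fin_cases j <;>
      simp only [Fin.mk_zero, Fin.mk_one, Fin.reduceFinMk, Matrix.cons_val_zero,
        Matrix.cons_val_one, Matrix.cons_val, norm_mul, h3, h4, Complex.norm_natCast] <;>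
      exact hpw
  · intro k _ _ _ r hr
    have h5 := congrArg (fun z : ℤ => (z : ℂ)) (numX_pow h k r hr)
    push_cast at h5
    rw [h5, luc_eq h1 (by rw [h2]; norm_cast)]
    simp only [Fin.sum_univ_four, Matrix.cons_val_zero, Matrix.cons_val_one, Matrix.cons_val]
    rw [mul_pow, mul_pow]
    ring
  · intro z
    simp only [Fin.prod_univ_four, Matrix.cons_val_zero, Matrix.cons_val_one, Matrix.cons_val]
    have e1 : (1 - (p : ℂ) * α * z) * (1 - (p : ℂ) * β * z) =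
        1 - (α + β) * p * z + (p : ℂ) ^ 2 * (α * β) * z ^ 2 := by ring
    rw [h1, h2] at e1
    calc (1 - (p : ℂ) * α * z) * (1 - (p : ℂ) * β * z) * (1 - (p : ℂ) * α * z) *
          (1 - (p : ℂ) * β * z)
        = ((1 - (p : ℂ) * α * z) * (1 - (p : ℂ) * β * z)) ^ 2 := by ring
      _ = _ := by rw [e1]; ring

end Pool.Agent.N844.QP
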