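import Pool.Agent.N844.QP.Eigen

/-!
The Euler product of the middle cohomology of the threefolds.
-/

set_option autoImplicit false

namespace Pool.Agent.N844.QP

open Finset
open scoped Classical

/-- the factor of the elliptic curve -/
noncomputable def facE (n : ℤ) (p : ℕ) (s : ℂ) : ℂ :=
  if p.Prime ∧ ¬ ((p : ℤ) ∣ 2 * (-4 * (aE n) ^ 3 - 27 * (bE n) ^ 2)) then
    (1 - ((p : ℂ) - (Nat.card {q : ZMod p × ZMod p //
        q.2 ^ 2 = q.1 ^ 3 + (aE n : ZMod p) * q.1 + (bE n : ZMod p)} : ℂ))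
        * (p : ℂ) ^ (-s) + (p : ℂ) ^ (1 - 2 * s))⁻¹
  else 1

lemma fac_shift (n : ℤ) {p : ℕ} (hp : p.Prime) (h : ¬ (p : ℤ) ∣ 30 * n) (s : ℂ) (ω : Fin 4 → ℂ)
    (hω : ∀ z : ℂ, ∏ j, (1 - ω j * z) = (1 - ap n p * p * z + (p : ℂ) ^ 3 * z ^ 2) ^ 2) :
    ∏ j, (1 - ω j * (p : ℂ) ^ (-s))⁻¹ = facE n p (s - 1) * facE n p (s - 1) := by
  have hp0 : (p : ℂ) ≠ 0 := Nat.cast_ne_zero.2 hp.ne_zero
  rw [Finset.prod_inv_distrib, hω]
  unfold facE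
  rw [if_pos ⟨hp, (good_iff hp n).2 h⟩, ← mul_inv]
  congr 1
  have e1 : (p : ℂ) ^ (-(s - 1)) = p * (p : ℂ) ^ (-s) := by
    rw [show -(s - 1) = 1 + -s by ring, Complex.cpow_add _ _ hp0, Complex.cpow_one]
  have e2 : (p : ℂ) ^ (1 - 2 * (s - 1)) = (p : ℂ) ^ 3 * ((p : ℂ) ^ (-s)) ^ 2 := by
    have h3 : (p : ℂ) ^ 3 = (p : ℂ) ^ (3 : ℂ) := by
      rw [← Complex.cpow_natCast]
      norm_num
    rw [show 1 - 2 * (s - 1) = 3 + (-s + -s) by ring, Complex.cpow_add _ _ hp0,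
      Complex.cpow_add _ _ hp0, h3]
    ring
  rw [e1, e2]
  unfold ap
  push_cast
  ring

/-- the Euler product of the third cohomology -/
theorem euler (n : ℤ) (G : ℂ → ℂ) (hG : Differentiable ℂ G)
    (hprod : ∀ s : ℂ, (3 : ℝ) / 2 < s.re → HasProd (fun p : ℕ => facE n p s) (G s))
    (h1 : G 1 ≠ 0) :
    ∃ ω : ℕ → Fin 4 → ℂ, (∀ p : ℕ, p.Prime → ¬ (p : ℤ) ∣ 30 * n → IsFrob n p (ω p)) ∧
      ∃ L : ℂ → ℂ, Differentiable ℂ L ∧
        (∀ s : ℂ, (5 : ℝ) / 2 < s.re →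
          HasProd (fun p : ℕ => if p.Prime ∧ ¬ (p : ℤ) ∣ 30 * n then
            ∏ j, (1 - ω p j * (p : ℂ) ^ (-s))⁻¹ else 1) (L s)) ∧ L 2 ≠ 0 := by
  have hex : ∀ p : ℕ, ∃ ω : Fin 4 → ℂ, (p.Prime ∧ ¬ (p : ℤ) ∣ 30 * n) → (IsFrob n p ω ∧
      ∀ z : ℂ, ∏ j, (1 - ω j * z) = (1 - ap n p * p * z + (p : ℂ) ^ 3 * z ^ 2) ^ 2) := by
    intro p
    by_cases hp : p.Prime ∧ ¬ (p : ℤ) ∣ 30 * n
    · have : Fact p.Prime := ⟨hp.1⟩
      obtain ⟨ω, h⟩ := frob_exists hp.2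
      exact ⟨ω, fun _ => h⟩
    · exact ⟨fun _ => 0, fun h => absurd h hp⟩
  choose ω hω using hex
  refine ⟨ω, fun p hp h => (hω p ⟨hp, h⟩).1, fun s => G (s - 1) * G (s - 1), ?_, ?_, ?_⟩
  · have : Differentiable ℂ fun s : ℂ => G (s - 1) := hG.comp (differentiable_id.sub_const 1)
    exact this.mul this
  · intro s hs
    have hs1 : (3 : ℝ) / 2 < (s - 1).re := by
      rw [Complex.sub_re, Complex.one_re]
      linarith
    have h2 := (hprod (s - 1) hs1).mul (hprod (s - 1) hs1)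
    refine (congrArg (fun g => HasProd g (G (s - 1) * G (s - 1))) (funext fun p => ?_)).mp h2
    by_cases hp : p.Prime ∧ ¬ (p : ℤ) ∣ 30 * n
    · rw [if_pos hp, fac_shift n hp.1 hp.2 s (ω p) (hω p hp).2]
    · rw [if_neg hp]
      have : facE n p (s - 1) = 1 := by
        unfold facE
        rw [if_neg]
        rintro ⟨h3, h4⟩
        exact hp ⟨h3, (good_iff h3 n).1 h4⟩
      rw [this, one_mul]
  · have : (2 : ℂ) - 1 = 1 := by norm_num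
    simp only [this]
    exact mul_ne_zero h1 h1

end Pool.Agent.N844.QP
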