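import Pool.Agent.N844.QP.PencilL

/-!
An example of a pencil for every `n`.
-/

set_option autoImplicit false

namespace Pool.Agent.N844.QP

open Matrix

/-- `n (10 n y₀² + y₁² + y₂² + y₃² + 3 y₄² - 5 y₅²)` -/
def exA (n : ℤ) : Matrix (Fin 6) (Fin 6) ℤ :=
  !![10 * n ^ 2, 0, 0, 0, 0, 0;
     0, n, 0, 0, 0, 0;
     0, 0, n, 0, 0, 0;
     0, 0, 0, n, 0, 0;
     0, 0, 0, 0, 3 * n, 0;
     0, 0, 0, 0, 0, -5 * n]

/-- `10 n y₀² - y₁² + 5 y₂² - 5 y₃² - 50 y₄ y₅` -/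
def exB (n : ℤ) : Matrix (Fin 6) (Fin 6) ℤ :=
  !![10 * n, 0, 0, 0, 0, 0;
     0, -1, 0, 0, 0, 0;
     0, 0, 5, 0, 0, 0;
     0, 0, 0, -5, 0, 0;
     0, 0, 0, 0, 0, -25;
     0, 0, 0, 0, -25, 0]

theorem ex_pencil (n : ℤ) : IsPencil n n 5 (exA n) (exB n) where
  symA := by
    unfold exA
    ext i j
    fin_cases i <;> fin_cases j <;> rfl
  symB := by
    unfold exB
    ext i j
    fin_cases i <;> fin_cases j <;> rfl
  disc := by
    intro x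
    unfold exA exB
    simp [Matrix.det_succ_row_zero, Fin.sum_univ_succ, Fin.succAbove]
    ring

end Pool.Agent.N844.QP
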