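import Pool.Agent.N844.QP.PencilL

/-!
The eigenvalues of Frobenius on the third cohomology of the intersections of two quadrics over finite
fields which are not prime fields.
-/

set_option autoImplicit false

namespace Pool.Agent.N844.QP

open Finset Matrix
open Pool.Agent.H82R3.EK (luc luc_eq card_points)
open scoped Classical

/-- the number of points over the finite fields -/
theorem av_luc {p : ℕ} [Fact p.Prime] {n : ℤ} (h : ¬ (p : ℤ) ∣ 30 * n)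
    (k : Type) [Field k] [Fintype k] [CharP k p] (r : ℕ) (hr : Fintype.card k = p ^ r) :
    (Fintype.card k : ℤ) - Nat.card {x : k × k // x.2 ^ 2 = x.1 ^ 3 + (aE n : k) * x.1 + (bE n : k)} =
      luc (ap n p) p r := by
  obtain ⟨h2, h3, h5, hn⟩ := not_dvd h
  have hp : p.Prime := Fact.out
  let _ : Algebra (ZMod p) k := ZMod.algebra k p
  have hp2 : p ≠ 2 := by
    rintro rfl
    exact h2 dvd_rfl
  have hD : ¬ (p : ℤ) ∣ 4 * (aE n) ^ 3 + 27 * (bE n) ^ 2 := by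
    intro h0
    apply (good_iff hp n).2 h
    have : 2 * (-4 * (aE n) ^ 3 - 27 * (bE n) ^ 2) =
      -2 * (4 * (aE n) ^ 3 + 27 * (bE n) ^ 2) := by ring
    rw [this]
    exact dvd_mul_of_dvd_right h0 _
  have h4 := W165.CE.points_ext hp2 (aE n) (bE n) hD (k := k)
  have hfr : Module.finrank (ZMod p) k = r := by
    have h6 := Module.card_eq_pow_finrank (K := ZMod p) (V := k)
    rw [hr, ZMod.card] at h6
    exact (Nat.pow_right_injective hp.two_le h6).symm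
  rw [hfr] at h4
  exact h4

/-- `ω` are the eigenvalues of Frobenius on the third cohomology over the field with `q = p ^ f`
elements -/
def IsFrobQ (A B : Matrix (Fin 6) (Fin 6) ℤ) (p f : ℕ) (ω : Fin 4 → ℂ) : Prop :=
  (∀ j, ‖ω j‖ = ((p ^ f : ℕ) : ℝ) ^ ((3 : ℝ) / 2)) ∧
    ∀ (k : Type) [Field k] [Fintype k] [CharP k p] (r : ℕ), Fintype.card k = (p ^ f) ^ r →
      (numP (A.map (Int.castRingHom k)) (B.map (Int.castRingHom k)) : ℂ) =
        1 + ((p ^ f : ℕ) : ℂ) ^ r + ((p ^ f : ℕ) : ℂ) ^ (2 * r) + ((p ^ f : ℕ) : ℂ) ^ (3 * r) -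
          ∑ j, ω j ^ r

/-- the polynomial of an elliptic curve over the field with `q = p ^ f` elements -/
noncomputable def denQ (n : ℤ) (p f : ℕ) (s : ℂ) : ℂ :=
  1 - (luc (ap n p) p f : ℂ) * ((p ^ f : ℕ) : ℂ) ^ (-s) + ((p ^ f : ℕ) : ℂ) ^ (1 - 2 * s)

theorem frobQ {n n' m : ℤ} {A B : Matrix (Fin 6) (Fin 6) ℤ} (hAB : IsPencil n n' m A B)
    {p : ℕ} [Fact p.Prime] (h : ¬ (p : ℤ) ∣ 30 * (n * n' * m)) (f : ℕ) :
    ∃ ω : Fin 4 → ℂ, IsFrobQ A B p f ω ∧ ∀ s : ℂ, ∏ j, (1 - ω j * ((p ^ f : ℕ) : ℂ) ^ (-s)) =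
      denQ n p f (s - 1) * denQ n' p f (s - 1) := by
  have hp : p.Prime := Fact.out
  have hn : ¬ (p : ℤ) ∣ 30 * n := fun h0 => h (by
    rw [show 30 * (n * n' * m) = 30 * n * (n' * m) by ring]
    exact dvd_mul_of_dvd_left h0 _)
  have hn' : ¬ (p : ℤ) ∣ 30 * n' := fun h0 => h (by
    rw [show 30 * (n * n' * m) = 30 * n' * (n * m) by ring]
    exact dvd_mul_of_dvd_left h0 _)
  have hm : ¬ (p : ℤ) ∣ m := fun h0 => h (by
    rw [show 30 * (n * n' * m) = m * (30 * n * n') by ring]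
    exact dvd_mul_of_dvd_left h0 _)
  obtain ⟨h2, h3, h5, hnn⟩ := not_dvd hn
  obtain ⟨_, _, _, hnn'⟩ := not_dvd hn'
  obtain ⟨α, β, a1, a2, a3, a4⟩ := eigen hn
  obtain ⟨α', β', b1, b2, b3, b4⟩ := eigen hn'
  have hp0 : (0 : ℝ) < p := by exact_mod_cast hp.pos
  have hq0 : (0 : ℝ) < ((p ^ f : ℕ) : ℝ) := by exact_mod_cast pow_pos hp.pos f
  have hqc : ((p ^ f : ℕ) : ℂ) ≠ 0 := Nat.cast_ne_zero.2 (pow_ne_zero f hp.ne_zero)
  have hpw : ((p ^ f : ℕ) : ℝ) * Real.sqrt p ^ f = ((p ^ f : ℕ) : ℝ) ^ ((3 : ℝ) / 2) := by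
    have e1 : Real.sqrt p ^ f = Real.sqrt ((p ^ f : ℕ) : ℝ) := by
      push_cast
      rw [Real.sqrt_eq_rpow, Real.sqrt_eq_rpow, ← Real.rpow_natCast, ← Real.rpow_natCast,
        ← Real.rpow_mul hp0.le, ← Real.rpow_mul hp0.le, mul_comm]
    rw [e1, Real.sqrt_eq_rpow, show ((3 : ℝ) / 2) = 1 + 1 / 2 by norm_num, Real.rpow_add hq0,
      Real.rpow_one]
  refine ⟨![(p ^ f : ℕ) * α ^ f, (p ^ f : ℕ) * β ^ f, (p ^ f : ℕ) * α' ^ f, (p ^ f : ℕ) * β' ^ f],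
    ⟨?_, ?_⟩, ?_⟩
  · intro j
    fin_cases j <;>
      simp only [Fin.mk_zero, Fin.mk_one, Fin.reduceFinMk, Matrix.cons_val_zero,
        Matrix.cons_val_one, Matrix.cons_val, norm_mul, norm_pow, a3, a4, b3, b4,
        Complex.norm_natCast] <;>
      exact hpw
  · intro k _ _ _ r hr
    have c0 : ∀ m : ℤ, ¬ (p : ℤ) ∣ m → (m : k) ≠ 0 := fun m hm h0 =>
      hm ((CharP.intCast_eq_zero_iff k p m).1 h0)
    have k2 : (2 : k) ≠ 0 := by simpa using c0 2 h2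
    have k3 : (3 : k) ≠ 0 := by simpa using c0 3 h3
    have k5 : (5 : k) ≠ 0 := by simpa using c0 5 h5
    have h6 := hAB.numP k2 k3 k5 (c0 n hnn) (c0 n' hnn') (c0 m hm)
    have hr' : Fintype.card k = p ^ (f * r) := by rw [hr, pow_mul]
    rw [SE_luc hn k (f * r) hr', SE_luc hn' k (f * r) hr', hr] at h6
    have h7 := congrArg (fun z : ℤ => (z : ℂ)) h6
    push_cast at h7
    rw [luc_eq a1 (by rw [a2]; norm_cast), luc_eq b1 (by rw [b2]; norm_cast)] at h7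
    rw [h7]
    simp only [Fin.sum_univ_four, Matrix.cons_val_zero, Matrix.cons_val_one, Matrix.cons_val]
    rw [mul_pow, mul_pow, mul_pow, mul_pow, ← pow_mul, ← pow_mul, ← pow_mul, ← pow_mul]
    push_cast
    ring
  · intro s
    simp only [Fin.prod_univ_four, Matrix.cons_val_zero, Matrix.cons_val_one, Matrix.cons_val]
    have e1 : ((p ^ f : ℕ) : ℂ) ^ (-(s - 1)) = (p ^ f : ℕ) * ((p ^ f : ℕ) : ℂ) ^ (-s) := by
      rw [show -(s - 1) = 1 + -s by ring, Complex.cpow_add _ _ hqc, Complex.cpow_one]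
    have e2 : ((p ^ f : ℕ) : ℂ) ^ (1 - 2 * (s - 1)) =
        ((p ^ f : ℕ) : ℂ) ^ 3 * (((p ^ f : ℕ) : ℂ) ^ (-s)) ^ 2 := by
      have h3 : ((p ^ f : ℕ) : ℂ) ^ 3 = ((p ^ f : ℕ) : ℂ) ^ (3 : ℂ) := by
        rw [← Complex.cpow_natCast]
        norm_num
      rw [show 1 - 2 * (s - 1) = 3 + (-s + -s) by ring, Complex.cpow_add _ _ hqc,
        Complex.cpow_add _ _ hqc, h3]
      ring
    have key : ∀ {ν : ℤ} {x y : ℂ}, x + y = ap ν p → x * y = p →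
        denQ ν p f (s - 1) = (1 - ((p ^ f : ℕ) : ℂ) * x ^ f * ((p ^ f : ℕ) : ℂ) ^ (-s)) *
        (1 - ((p ^ f : ℕ) : ℂ) * y ^ f * ((p ^ f : ℕ) : ℂ) ^ (-s)) := by
      intro ν x y c1 c2
      unfold denQ
      rw [e1, e2, luc_eq c1 (by rw [c2]; norm_cast)]
      have : ((p ^ f : ℕ) : ℂ) ^ 3 = ((p ^ f : ℕ) : ℂ) ^ 2 * (x ^ f * y ^ f) := by
        rw [← mul_pow, c2]
        push_cast
        ring
      rw [this]
      ring
    rw [key a1 a2, key b1 b2]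
    ring

/-- the factor does not vanish to the right of the centre -/
theorem denQ_ne {n : ℤ} {p : ℕ} (hp : p.Prime) (h : ¬ (p : ℤ) ∣ 30 * n) {f : ℕ} (hf : f ≠ 0) {s : ℂ}
    (hs : 1 / 2 < s.re) : denQ n p f s ≠ 0 := by
  have : Fact p.Prime := ⟨hp⟩
  obtain ⟨α, β, h1, h2, h3, h4⟩ := eigen h
  have hqc : ((p ^ f : ℕ) : ℂ) ≠ 0 := Nat.cast_ne_zero.2 (pow_ne_zero f hp.ne_zero)
  have hpp : (0 : ℝ) < p := by exact_mod_cast hp.pos
  have hqr : (1 : ℝ) < ((p ^ f : ℕ) : ℝ) := by exact_mod_cast Nat.one_lt_pow hf hp.one_lt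
  have hqp : (0 : ℝ) < ((p ^ f : ℕ) : ℝ) := by linarith
  have e : denQ n p f s = (1 - α ^ f * ((p ^ f : ℕ) : ℂ) ^ (-s)) *
      (1 - β ^ f * ((p ^ f : ℕ) : ℂ) ^ (-s)) := by
    have e2 : ((p ^ f : ℕ) : ℂ) ^ (1 - 2 * s) =
        ((p ^ f : ℕ) : ℂ) * (((p ^ f : ℕ) : ℂ) ^ (-s)) ^ 2 := by
      rw [show 1 - 2 * s = 1 + (-s + -s) by ring, Complex.cpow_add _ _ hqc,
        Complex.cpow_add _ _ hqc, Complex.cpow_one]
      ring
    unfold denQ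
    rw [e2, luc_eq h1 (by rw [h2]; norm_cast)]
    have e3 : ((p ^ f : ℕ) : ℂ) = α ^ f * β ^ f := by
      rw [← mul_pow, h2]
      push_cast
      rfl
    have e4 : ((p ^ f : ℕ) : ℂ) * (((p ^ f : ℕ) : ℂ) ^ (-s)) ^ 2 =
        (α ^ f * β ^ f) * (((p ^ f : ℕ) : ℂ) ^ (-s)) ^ 2 := by rw [← e3]
    rw [e4]
    ring
  have hlt : ∀ γ : ℂ, ‖γ‖ = Real.sqrt p → 1 - γ ^ f * ((p ^ f : ℕ) : ℂ) ^ (-s) ≠ 0 := by
    intro γ hγ h0
    have h5 : γ ^ f * ((p ^ f : ℕ) : ℂ) ^ (-s) = 1 := by linear_combination - h0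
    have e1 : Real.sqrt p ^ f = Real.sqrt ((p ^ f : ℕ) : ℝ) := by
      push_cast
      rw [Real.sqrt_eq_rpow, Real.sqrt_eq_rpow, ← Real.rpow_natCast, ← Real.rpow_natCast,
        ← Real.rpow_mul hpp.le, ← Real.rpow_mul hpp.le, mul_comm]
    have h6 : ‖γ ^ f * ((p ^ f : ℕ) : ℂ) ^ (-s)‖ = ((p ^ f : ℕ) : ℝ) ^ (1 / 2 - s.re) := by
      rw [norm_mul, norm_pow, hγ, Complex.norm_natCast_cpow_of_pos (pow_pos hp.pos f),
        Complex.neg_re, e1, Real.sqrt_eq_rpow, ← Real.rpow_add hqp]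
      ring_nf
    rw [h5, norm_one] at h6
    have h7 : ((p ^ f : ℕ) : ℝ) ^ (1 / 2 - s.re) < 1 :=
      Real.rpow_lt_one_of_one_lt_of_neg hqr (by linarith)
    linarith
  rw [e]
  exact mul_ne_zero (hlt α h3) (hlt β h4)

theorem denQ_differentiable (n : ℤ) {p : ℕ} (hp : p.Prime) (f : ℕ) :
    Differentiable ℂ (denQ n p f) := by
  have hp0 : ((p ^ f : ℕ) : ℂ) ≠ 0 := Nat.cast_ne_zero.2 (pow_ne_zero f hp.ne_zero)
  have h1 : Differentiable ℂ fun s : ℂ => ((p ^ f : ℕ) : ℂ) ^ (-s) := fun s =>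
    (differentiableAt_id.neg).const_cpow (Or.inl hp0)
  have h2 : Differentiable ℂ fun s : ℂ => ((p ^ f : ℕ) : ℂ) ^ (1 - 2 * s) := fun s =>
    ((differentiableAt_const 1).sub (differentiableAt_id.const_mul 2)).const_cpow (Or.inl hp0)
  exact ((differentiable_const 1).sub (h1.const_mul (luc (ap n p) p f : ℂ))).add h2

end Pool.Agent.N844.QP
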