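import Mathlib

/-!
Gauss sums of quadratic forms in six variables over finite fields.
-/

set_option autoImplicit false

namespace Pool.Agent.N844.QP

open Finset

variable {k : Type*} [Field k] [Fintype k] [DecidableEq k]

/-- the quadratic character with complex values -/
noncomputable def chi (k : Type*) [Field k] [Fintype k] [DecidableEq k] : MulChar k ℂ :=
  (quadraticChar k).ringHomComp (Int.castRingHom ℂ)

lemma chi_apply (a : k) : chi k a = ((quadraticChar k a : ℤ) : ℂ) := by
  simp [chi, MulChar.ringHomComp_apply]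

lemma sum_sq (hk : ringChar k ≠ 2) {R : Type*} [CommRing R] (f : k → R) :
    ∑ x : k, f (x ^ 2) = ∑ y : k, (((quadraticChar k y : ℤ) : R) + 1) * f y := by
  rw [← Finset.sum_fiberwise (s := univ) (g := fun x : k => x ^ 2) (f := fun x => f (x ^ 2))]
  refine Finset.sum_congr rfl fun y _ => ?_
  have h1 : ∑ x ∈ univ.filter (fun x : k => x ^ 2 = y), f (x ^ 2) =
      ∑ x ∈ univ.filter (fun x : k => x ^ 2 = y), f y :=
    Finset.sum_congr rfl fun x hx => by rw [(Finset.mem_filter.1 hx).2]
  rw [h1, Finset.sum_const, nsmul_eq_mul]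
  congr 1
  have h2 := quadraticChar_card_sqrts hk y
  have h3 : {x : k | x ^ 2 = y}.toFinset = univ.filter (fun x : k => x ^ 2 = y) := by
    ext x; simp
  rw [h3] at h2
  have h4 := congrArg (fun z : ℤ => (z : R)) h2
  push_cast at h4
  exact h4

lemma chi_ne_one (hk : ringChar k ≠ 2) : chi k ≠ 1 := by
  intro h
  obtain ⟨a, ha⟩ := quadraticChar_exists_neg_one hk
  have h1 := chi_apply a
  rw [h, ha] at h1
  have h2 : a ≠ 0 := by
    rintro rfl
    simp at ha
  rw [MulChar.one_apply (isUnit_iff_ne_zero.2 h2)] at h1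
  norm_num at h1

lemma chi_quad : (chi k).IsQuadratic := by
  intro a
  rw [chi_apply]
  rcases quadraticChar_isQuadratic k a with h | h | h
  · left; rw [h]; simp
  · right; left; rw [h]; simp
  · right; right; rw [h]; simp

variable {ψ : AddChar k ℂ}

lemma g_four (hk : ringChar k ≠ 2) (hψ : ψ.IsPrimitive) :
    gaussSum (chi k) ψ ^ 4 = (Fintype.card k : ℂ) ^ 2 := by
  have h := gaussSum_sq (chi_ne_one hk) chi_quad hψ
  have h1 : chi k (-1) ^ 2 = 1 := by
    rw [chi_apply]
    have : (quadraticChar k (-1 : k)) ^ 2 = 1 := quadraticChar_sq_one (neg_ne_zero.2 one_ne_zero)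
    exact_mod_cast this
  calc gaussSum (chi k) ψ ^ 4 = (gaussSum (chi k) ψ ^ 2) ^ 2 := by ring
    _ = (chi k (-1)) ^ 2 * (Fintype.card k : ℂ) ^ 2 := by rw [h]; ring
    _ = _ := by rw [h1, one_mul]

lemma sum_psi_mul (hψ : ψ.IsPrimitive) (b : k) :
    ∑ x : k, ψ (b * x) = if b = 0 then (Fintype.card k : ℂ) else 0 := by
  have := AddChar.sum_mulShift b hψ
  simpa [mul_comm] using this

lemma chi_mul_self {a : k} (ha : a ≠ 0) : chi k a * chi k a = 1 := by
  rw [chi_apply]
  have : (quadraticChar k a) ^ 2 = 1 := quadraticChar_sq_one ha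
  rw [← pow_two]
  exact_mod_cast this

/-- the Gauss sum of a unary form -/
lemma un (hk : ringChar k ≠ 2) (hψ : ψ.IsPrimitive) {a : k} (ha : a ≠ 0) :
    ∑ x : k, ψ (a * x ^ 2) = chi k a * gaussSum (chi k) ψ := by
  rw [sum_sq hk (fun y => ψ (a * y))]
  simp_rw [add_mul, one_mul, Finset.sum_add_distrib]
  rw [sum_psi_mul hψ, if_neg ha, add_zero, gaussSum, Finset.mul_sum]
  rw [← Equiv.sum_comp (Equiv.mulLeft₀ a ha) (fun y => chi k a * (chi k y * ψ y))]
  refine Finset.sum_congr rfl fun y _ => ?_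
  change _ = chi k a * (chi k (a * y) * ψ (a * y))
  rw [← chi_apply, map_mul (chi k) a y, ← mul_assoc, ← mul_assoc, chi_mul_self ha, one_mul]

/-- the Gauss sum of a binary form, completing the square -/
lemma bin_sq (hk : ringChar k ≠ 2) (hψ : ψ.IsPrimitive) {a b c : k} (ha : a ≠ 0) :
    ∑ u : k, ∑ v : k, ψ (a * u ^ 2 + 2 * b * (u * v) + c * v ^ 2) =
      chi k a * gaussSum (chi k) ψ * ∑ v : k, ψ ((a * c - b ^ 2) / a * v ^ 2) := by
  rw [Finset.sum_comm, Finset.mul_sum]
  refine Finset.sum_congr rfl fun v _ => ?_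
  rw [← un hk hψ ha, Finset.sum_mul]
  rw [← Equiv.sum_comp (Equiv.addRight (b * v / a))
    (fun u => ψ (a * u ^ 2) * ψ ((a * c - b ^ 2) / a * v ^ 2))]
  refine Finset.sum_congr rfl fun u _ => ?_
  rw [Equiv.coe_addRight, ← AddChar.map_add_eq_mul]
  congr 1
  field_simp
  ring

/-- the Gauss sum of a nondegenerate binary form -/
lemma bin (hk : ringChar k ≠ 2) (hψ : ψ.IsPrimitive) {a b c : k} (h : b ^ 2 - a * c ≠ 0) :
    ∑ u : k, ∑ v : k, ψ (a * u ^ 2 + 2 * b * (u * v) + c * v ^ 2) =
      chi k (b ^ 2 - a * c) * Fintype.card k := by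
  have h2 : (2 : k) ≠ 0 := Ring.two_ne_zero hk
  by_cases ha : a = 0
  · subst ha
    have hb : b ≠ 0 := by
      rintro rfl
      simp at h
    have e : b ^ 2 - 0 * c = b * b := by ring
    rw [e, map_mul, chi_mul_self hb, one_mul, Finset.sum_comm]
    have h3 : ∀ v : k, ∑ u : k, ψ (0 * u ^ 2 + 2 * b * (u * v) + c * v ^ 2) =
        if v = 0 then (Fintype.card k : ℂ) else 0 := by
      intro v
      have h4 : ∀ u : k, ψ (0 * u ^ 2 + 2 * b * (u * v) + c * v ^ 2) =
          ψ ((2 * b * v) * u) * ψ (c * v ^ 2) := by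
        intro u
        rw [← AddChar.map_add_eq_mul]
        congr 1
        ring
      simp_rw [h4]
      rw [← Finset.sum_mul, sum_psi_mul hψ]
      by_cases hv : v = 0
      · subst hv
        simp
      · rw [if_neg, if_neg hv, zero_mul]
        exact mul_ne_zero (mul_ne_zero h2 hb) hv
    simp_rw [h3]
    simp
  · rw [bin_sq hk hψ ha, un hk hψ (div_ne_zero (by
      intro h5
      apply h
      linear_combination -h5) ha)]
    have h3 : chi k ((a * c - b ^ 2) / a) = chi k (-1) * chi k (b ^ 2 - a * c) * chi k a := by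
      rw [← map_mul, ← map_mul]
      have e : (a * c - b ^ 2) / a * (a * a) = -1 * (b ^ 2 - a * c) * a := by
        field_simp
        ring
      rw [← e, map_mul, map_mul (chi k) a a, chi_mul_self ha, mul_one]
    have hg := gaussSum_sq (chi_ne_one hk) chi_quad hψ
    have h1 : chi k (-1) * chi k (-1) = 1 := chi_mul_self (neg_ne_zero.2 one_ne_zero)
    rw [h3]
    have h6 := chi_mul_self ha
    calc chi k a * gaussSum (chi k) ψ *
          (chi k (-1) * chi k (b ^ 2 - a * c) * chi k a * gaussSum (chi k) ψ)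
        = (chi k a * chi k a) * chi k (-1) * chi k (b ^ 2 - a * c) * gaussSum (chi k) ψ ^ 2 := by
          ring
      _ = (chi k (-1) * chi k (-1)) * (chi k (b ^ 2 - a * c) * Fintype.card k) := by
          rw [h6, hg]; ring
      _ = _ := by rw [h1, one_mul]

/-- the Gauss sum of a degenerate binary form -/
lemma bin0 (hk : ringChar k ≠ 2) (hψ : ψ.IsPrimitive) {a b c : k} (ha : a ≠ 0)
    (h : b ^ 2 - a * c = 0) :
    ∑ u : k, ∑ v : k, ψ (a * u ^ 2 + 2 * b * (u * v) + c * v ^ 2) =
      chi k a * gaussSum (chi k) ψ * Fintype.card k := by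
  have e : a * c - b ^ 2 = 0 := by linear_combination -h
  rw [bin_sq hk hψ ha, e]
  simp

end Pool.Agent.N844.QP
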