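import Pool.Agent.N844.QP.Zeros

/-!
Character sums of two-isogenous elliptic curves and of the pencil.
-/

set_option autoImplicit false

namespace Pool.Agent.N844.QP

open Finset

variable {k : Type*} [Field k] [Fintype k] [DecidableEq k]


omit [DecidableEq k] in
lemma two_ne (hk : ringChar k ≠ 2) : (2 : k) ≠ 0 := Ring.two_ne_zero hk

lemma chi_sq {a : k} (ha : a ≠ 0) (b : k) : quadraticChar k (a ^ 2 * b) = quadraticChar k b := by
  rw [map_mul, quadraticChar_sq_one' ha, one_mul]

/-- the number of roots of a quadratic polynomial with nonzero constant term -/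
lemma card_roots (hk : ringChar k ≠ 2) (c b : k) :
    (((univ.filter fun x : k => x ^ 2 - c * x + b = 0).card : ℤ)) = quadraticChar k (c ^ 2 - 4 * b) + 1 := by
  rw [← quadraticChar_card_sqrts hk]
  have h2 : (2 : k) ≠ 0 := two_ne hk
  congr 1
  refine Finset.card_bij (fun x _ => 2 * x - c) ?_ ?_ ?_
  · intro x hx
    have h := (Finset.mem_filter.1 hx).2
    simp only [Set.mem_toFinset, Set.mem_ofPred_eq]
    linear_combination 4 * h
  · intro x _ y _ h
    have h1 : 2 * x = 2 * y := by
      have h' : 2 * x - c = 2 * y - c := h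
      linear_combination h'
    exact mul_left_cancel₀ h2 h1
  · intro y hy
    simp only [Set.mem_toFinset, Set.mem_ofPred_eq] at hy
    refine ⟨(y + c) / 2, ?_, ?_⟩
    · rw [Finset.mem_filter]
      refine ⟨mem_univ _, ?_⟩
      field_simp
      linear_combination hy
    · field_simp
      ring

lemma sum_chi_int (hk : ringChar k ≠ 2) : ∑ x : k, quadraticChar k x = 0 := quadraticChar_sum_zero hk

/-- **two-isogenous curves** -/
theorem isog (hk : ringChar k ≠ 2) (a b : k) (hb : b ≠ 0) :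
    ∑ x : k, quadraticChar k (x * (x ^ 2 + a * x + b)) = ∑ u : k, quadraticChar k (u * (u ^ 2 - 2 * a * u + (a ^ 2 - 4 * b))) := by
  have h1 : ∑ x : k, quadraticChar k (x * (x ^ 2 + a * x + b)) =
      ∑ x ∈ univ.filter (fun x : k => x ≠ 0), quadraticChar k (x + a + b / x) := by
    rw [Finset.sum_filter]
    refine Finset.sum_congr rfl fun x _ => ?_
    by_cases hx : x = 0
    · subst hx
      simp
    · rw [if_pos hx, ← chi_sq hx (x + a + b / x)]
      congr 1
      field_simp
  rw [h1, ← Finset.sum_fiberwise (g := fun x : k => x + a + b / x)]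
  have h2 : ∀ u : k, ∑ x ∈ (univ.filter (fun x : k => x ≠ 0)).filter (fun x => x + a + b / x = u),
      quadraticChar k (x + a + b / x) = quadraticChar k u + quadraticChar k (u * (u ^ 2 - 2 * a * u + (a ^ 2 - 4 * b))) := by
    intro u
    rw [Finset.sum_congr rfl fun x hx => by rw [(Finset.mem_filter.1 hx).2]]
    rw [Finset.sum_const, nsmul_eq_mul]
    have h3 : (univ.filter (fun x : k => x ≠ 0)).filter (fun x => x + a + b / x = u) =
        univ.filter (fun x : k => x ^ 2 - (u - a) * x + b = 0) := by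
      ext x
      simp only [Finset.mem_filter, Finset.mem_univ, true_and]
      constructor
      · rintro ⟨hx, h⟩
        rw [← h]
        field_simp
        ring
      · intro h
        have hx : x ≠ 0 := by
          rintro rfl
          apply hb
          linear_combination h
        refine ⟨hx, ?_⟩
        field_simp
        linear_combination h
    rw [h3, card_roots hk, add_mul, one_mul, ← map_mul, add_comm]
    congr 2
    ring
  rw [Finset.sum_congr rfl fun u _ => h2 u, Finset.sum_add_distrib, sum_chi_int hk, zero_add]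

/-- a linear change of the variable -/
lemma sum_lin (f : k → ℤ) {a : k} (ha : a ≠ 0) (b : k) : ∑ x : k, f (a * x + b) = ∑ x : k, f x := by
  rw [← Equiv.sum_comp ((Equiv.mulLeft₀ a ha).trans (Equiv.addRight b)) f]
  rfl

/-- inversion of the variable -/
lemma sum_inv (f : k → ℤ) (h0 : f 0 = 0) : ∑ x : k, f x = ∑ x : k, if x = 0 then 0 else f x⁻¹ := by
  have h1 : ∑ x : k, f x = ∑ x : k, f x⁻¹ := (Equiv.sum_comp (Equiv.inv k) f).symm
  rw [h1]
  refine Finset.sum_congr rfl fun x _ => ?_
  by_cases hx : x = 0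
  · subst hx
    simp [h0]
  · rw [if_neg hx]

/-- the first quadric -/
def Q1 (m : k) : Co k := ⟨-10 * m, 1, 1, 1, 3, 0, -5⟩

/-- the second quadric -/
def Q2 (m : k) : Co k := ⟨10 * m, 1, -5, 5, 0, 25, 0⟩

/-- the elliptic curve -/
def cub (m t : k) : k := t ^ 3 - 12987 * m ^ 2 * t - 263466 * m ^ 3

lemma S1 (hk : ringChar k ≠ 2) (h3 : (3 : k) ≠ 0) (h5 : (5 : k) ≠ 0) {m : k} (hm : m ≠ 0) :
    ∑ w : k, quadraticChar k (-50 * m * ((w - 1) * (w - 25) * (3 * w + 125))) = ∑ t : k, quadraticChar k (cub m t) := by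
  have h2 : (2 : k) ≠ 0 := two_ne hk
  have ha : (-(27 * m) / 8 : k) ≠ 0 := by
    apply div_ne_zero (neg_ne_zero.2 (mul_ne_zero _ hm))
    · have : (8 : k) = 2 ^ 3 := by norm_num
      rw [this]; exact pow_ne_zero _ h2
    · have : (27 : k) = 3 ^ 3 := by norm_num
      rw [this]; exact pow_ne_zero _ h3
  rw [← sum_lin (fun t => quadraticChar k (cub m t)) ha (675 * m / 8 - 102 * m)]
  refine Finset.sum_congr rfl fun w _ => ?_
  have h8 : (8 : k) ≠ 0 := by
    have : (8 : k) = 2 ^ 3 := by norm_num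
    rw [this]; exact pow_ne_zero _ h2
  have hs : (160 / (81 * m) : k) ≠ 0 := by
    apply div_ne_zero
    · have : (160 : k) = 2 ^ 5 * 5 := by norm_num
      rw [this]; exact mul_ne_zero (pow_ne_zero _ h2) h5
    · refine mul_ne_zero ?_ hm
      have : (81 : k) = 3 ^ 4 := by norm_num
      rw [this]; exact pow_ne_zero _ h3
  rw [← chi_sq hs (cub m _)]
  congr 1
  unfold cub
  have h81 : (81 : k) ≠ 0 := by
    have : (81 : k) = 3 ^ 4 := by norm_num
    rw [this]; exact pow_ne_zero _ h3
  field_simp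
  ring

lemma S2 (hk : ringChar k ≠ 2) (h3 : (3 : k) ≠ 0) (h5 : (5 : k) ≠ 0) {m : k} (hm : m ≠ 0) :
    ∑ v : k, quadraticChar k (-50 * m * ((1 - v) * (1 - 25 * v) * (125 * v + 3))) = ∑ t : k, quadraticChar k (cub m t) := by
  have h2 : (2 : k) ≠ 0 := two_ne hk
  have h4 : (4 : k) ≠ 0 := by
    have : (4 : k) = 2 ^ 2 := by norm_num
    rw [this]; exact pow_ne_zero _ h2
  -- the isogenous curve
  have e1 : ∑ v : k, quadraticChar k (-50 * m * ((1 - v) * (1 - 25 * v) * (125 * v + 3))) =
      ∑ u : k, quadraticChar k (u * (u ^ 2 - 2 * (-34 * m) * u + ((-34 * m) ^ 2 - 4 * (225 * m ^ 2)))) := by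
    have ha : (-(125 * m) / 2 : k) ≠ 0 := by
      apply div_ne_zero (neg_ne_zero.2 (mul_ne_zero _ hm)) h2
      have : (125 : k) = 5 ^ 3 := by norm_num
      rw [this]; exact pow_ne_zero _ h5
    rw [← sum_lin (fun u => quadraticChar k (u * (u ^ 2 - 2 * (-34 * m) * u +
      ((-34 * m) ^ 2 - 4 * (225 * m ^ 2))))) ha (-(3 * m) / 2)]
    refine Finset.sum_congr rfl fun v _ => ?_
    have hs : (4 / (5 * m) : k) ≠ 0 := div_ne_zero h4 (mul_ne_zero h5 hm)
    rw [← chi_sq hs (((-(125 * m) / 2 : k) * v + -(3 * m) / 2) * _)]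
    congr 1
    field_simp
    ring
  rw [e1, ← isog hk (-34 * m) (225 * m ^ 2)]
  · have ha : (9 : k) ≠ 0 := by
      have : (9 : k) = 3 ^ 2 := by norm_num
      rw [this]; exact pow_ne_zero _ h3
    rw [← sum_lin (fun t => quadraticChar k (cub m t)) ha (-102 * m)]
    refine Finset.sum_congr rfl fun x _ => ?_
    have hs : (27 : k) ≠ 0 := by
      have : (27 : k) = 3 ^ 3 := by norm_num
      rw [this]; exact pow_ne_zero _ h3
    rw [← chi_sq hs (x * _)]
    congr 1
    unfold cub
    ring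
  · refine mul_ne_zero ?_ (pow_ne_zero _ hm)
    have : (225 : k) = 3 ^ 2 * 5 ^ 2 := by norm_num
    rw [this]; exact mul_ne_zero (pow_ne_zero _ h3) (pow_ne_zero _ h5)

/-- the value of the discriminant form -/
def hh (m x : k) : k := -50 * m * ((x ^ 2 - 1) * (x ^ 2 - 25) * (3 * x ^ 2 + 125))

lemma dis_lin (m x : k) : ((Q2 m).lin (Q1 m) x).dis = hh m x := by
  unfold Co.lin Co.dis Q1 Q2 hh
  ring

lemma dis_Q1 (m : k) : (Q1 m).dis = -150 * m := by
  unfold Co.dis Q1
  ring

/-- the sum over the pencil -/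
theorem sum_hh (hk : ringChar k ≠ 2) (h3 : (3 : k) ≠ 0) (h5 : (5 : k) ≠ 0) {m : k} (hm : m ≠ 0) :
    ∑ x : k, quadraticChar k (hh m x) + quadraticChar k (-150 * m) = 2 * ∑ t : k, quadraticChar k (cub m t) := by
  have e1 : ∑ x : k, quadraticChar k (hh m x) = ∑ w : k, quadraticChar k (-50 * m * ((w - 1) * (w - 25) * (3 * w + 125))) +
      ∑ w : k, quadraticChar k (w * (-50 * m * ((w - 1) * (w - 25) * (3 * w + 125)))) := by
    have h := sum_sq hk (fun w : k => quadraticChar k (-50 * m * ((w - 1) * (w - 25) * (3 * w + 125))))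
    change ∑ x : k, quadraticChar k (-50 * m * ((x ^ 2 - 1) * (x ^ 2 - 25) * (3 * x ^ 2 + 125))) = _
    rw [h, ← Finset.sum_add_distrib]
    refine Finset.sum_congr rfl fun w _ => ?_
    rw [map_mul (quadraticChar k) w, Int.cast_id]
    ring
  have e2 : ∑ w : k, quadraticChar k (w * (-50 * m * ((w - 1) * (w - 25) * (3 * w + 125)))) =
      ∑ v : k, quadraticChar k (-50 * m * ((1 - v) * (1 - 25 * v) * (125 * v + 3))) - quadraticChar k (-150 * m) := by
    rw [sum_inv _ (by simp)]
    rw [← Finset.add_sum_erase univ (fun v : k => quadraticChar k (-50 * m * ((1 - v) * (1 - 25 * v) *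
      (125 * v + 3)))) (mem_univ 0), ← Finset.add_sum_erase univ _ (mem_univ (0 : k))]
    rw [if_pos rfl, zero_add]
    have e3 : (-50 * m * ((1 - 0) * (1 - 25 * 0) * (125 * 0 + 3)) : k) = -150 * m := by ring
    rw [e3, add_sub_cancel_left]
    refine Finset.sum_congr rfl fun v hv => ?_
    have hv0 : v ≠ 0 := Finset.ne_of_mem_erase hv
    rw [if_neg hv0, ← chi_sq (pow_ne_zero 2 hv0)]
    congr 1
    field_simp
    ring
  rw [e1, e2, S1 hk h3 h5 hm, S2 hk h3 h5 hm]
  ring

end Pool.Agent.N844.QP
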