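import Pool.Agent.N844.QP.Pencil

/-!
The `L`-function of the middle cohomology of an intersection of two quadrics in `P⁵`.
-/

set_option autoImplicit false

namespace Pool.Agent.N844.QP

open Finset Matrix
open Pool.Agent.H82R3.EK (luc luc_eq card_points)
open scoped Classical

/-- the entire function `1 - a_p p^(-s) + p^(1-2s)` -/
noncomputable def den (n : ℤ) (p : ℕ) (s : ℂ) : ℂ :=
  1 - (ap n p : ℂ) * (p : ℂ) ^ (-s) + (p : ℂ) ^ (1 - 2 * s)

lemma facE_good {n : ℤ} {p : ℕ} (hp : p.Prime) (h : ¬ (p : ℤ) ∣ 30 * n) (s : ℂ) :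
    facE n p s = (den n p s)⁻¹ := by
  unfold facE den ap
  rw [if_pos ⟨hp, (good_iff hp n).2 h⟩]
  push_cast
  rfl

lemma facE_bad {n : ℤ} {p : ℕ} (h : ¬ (p.Prime ∧ ¬ (p : ℤ) ∣ 30 * n)) (s : ℂ) :
    facE n p s = 1 := by
  unfold facE
  rw [if_neg]
  rintro ⟨h3, h4⟩
  exact h ⟨h3, (good_iff h3 n).1 h4⟩

lemma den_differentiable (n : ℤ) {p : ℕ} (hp : p.Prime) : Differentiable ℂ (den n p) := by
  have hp0 : (p : ℂ) ≠ 0 := Nat.cast_ne_zero.2 hp.ne_zero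
  have h1 : Differentiable ℂ fun s : ℂ => (p : ℂ) ^ (-s) := fun s =>
    (differentiableAt_id.neg).const_cpow (Or.inl hp0)
  have h2 : Differentiable ℂ fun s : ℂ => (p : ℂ) ^ (1 - 2 * s) := fun s =>
    ((differentiableAt_const 1).sub (differentiableAt_id.const_mul 2)).const_cpow (Or.inl hp0)
  exact ((differentiable_const 1).sub (h1.const_mul (ap n p : ℂ))).add h2

lemma den_ne {n : ℤ} {p : ℕ} (hp : p.Prime) (h : ¬ (p : ℤ) ∣ 30 * n) {s : ℂ}
    (hs : 1 / 2 < s.re) : den n p s ≠ 0 := by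
  have : Fact p.Prime := ⟨hp⟩
  obtain ⟨α, β, h1, h2, h3, h4⟩ := eigen h
  have hp0 : (p : ℂ) ≠ 0 := Nat.cast_ne_zero.2 hp.ne_zero
  have hpr : (1 : ℝ) < p := by exact_mod_cast hp.one_lt
  have hpp : (0 : ℝ) < p := by linarith
  have e : den n p s = (1 - α * (p : ℂ) ^ (-s)) * (1 - β * (p : ℂ) ^ (-s)) := by
    have e2 : (p : ℂ) ^ (1 - 2 * s) = (p : ℂ) * ((p : ℂ) ^ (-s)) ^ 2 := by
      rw [show 1 - 2 * s = 1 + (-s + -s) by ring, Complex.cpow_add _ _ hp0,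
        Complex.cpow_add _ _ hp0, Complex.cpow_one]
      ring
    unfold den
    rw [e2, ← h1, ← h2]
    ring
  have hlt : ∀ γ : ℂ, ‖γ‖ = Real.sqrt p → 1 - γ * (p : ℂ) ^ (-s) ≠ 0 := by
    intro γ hγ h0
    have h5 : γ * (p : ℂ) ^ (-s) = 1 := by linear_combination - h0
    have h6 : ‖γ * (p : ℂ) ^ (-s)‖ = (p : ℝ) ^ (1 / 2 - s.re) := by
      rw [norm_mul, hγ, Complex.norm_natCast_cpow_of_pos hp.pos, Complex.neg_re,
        Real.sqrt_eq_rpow, ← Real.rpow_add hpp]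
      ring_nf
    rw [h5, norm_one] at h6
    have h7 : (p : ℝ) ^ (1 / 2 - s.re) < 1 :=
      Real.rpow_lt_one_of_one_lt_of_neg hpr (by linarith)
    linarith
  rw [e]
  exact mul_ne_zero (hlt α h3) (hlt β h4)

/-- the `L`-function of the elliptic curve without the factors at the primes dividing `M` -/
theorem remove {n M : ℤ} (hM : M ≠ 0) (hnM : n ∣ M) {G : ℂ → ℂ} (hG : Differentiable ℂ G)
    (hprod : ∀ s : ℂ, (3 : ℝ) / 2 < s.re → HasProd (fun p : ℕ => facE n p s) (G s))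
    (h1 : G 1 ≠ 0) :
    ∃ H : ℂ → ℂ, Differentiable ℂ H ∧ (∀ s : ℂ, (3 : ℝ) / 2 < s.re →
      HasProd (fun p : ℕ => if p.Prime ∧ ¬ (p : ℤ) ∣ 30 * M then (den n p s)⁻¹ else 1) (H s)) ∧
      H 1 ≠ 0 := by
  set S : Finset ℕ := (30 * M).natAbs.primeFactors.filter fun p => ¬ (p : ℤ) ∣ 30 * n with hS
  have hSp : ∀ p ∈ S, p.Prime ∧ ¬ (p : ℤ) ∣ 30 * n := fun p hp =>
    ⟨Nat.prime_of_mem_primeFactors (Finset.mem_filter.1 hp).1, (Finset.mem_filter.1 hp).2⟩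
  have hmem : ∀ p : ℕ, p.Prime → (p ∈ S ↔ ((p : ℤ) ∣ 30 * M ∧ ¬ (p : ℤ) ∣ 30 * n)) := by
    intro p hp
    rw [hS, Finset.mem_filter, Nat.mem_primeFactors]
    have h30 : (30 * M).natAbs ≠ 0 := Int.natAbs_ne_zero.2 (mul_ne_zero (by norm_num) hM)
    constructor
    · rintro ⟨⟨_, h3, _⟩, h4⟩
      exact ⟨Int.natCast_dvd.2 h3, h4⟩
    · rintro ⟨h3, h4⟩
      exact ⟨⟨hp, Int.natCast_dvd.1 h3, h30⟩, h4⟩
  refine ⟨fun s => G s * ∏ p ∈ S, den n p s, ?_, ?_, ?_⟩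
  · refine hG.mul (Differentiable.fun_finsetProd fun p hp => ?_)
    exact den_differentiable n (hSp p hp).1
  · intro s hs
    have hs2 : 1 / 2 < s.re := by
      have : (3 : ℝ) / 2 < s.re := hs
      linarith
    have h3 : HasProd (fun p : ℕ => if p ∈ S then den n p s else 1) (∏ p ∈ S, den n p s) := by
      have h4 : HasProd (fun p : ℕ => if p ∈ S then den n p s else 1)
          (∏ p ∈ S, if p ∈ S then den n p s else 1) :=
        hasProd_prod_of_ne_finset_one (fun p hp => if_neg hp)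
      have h5 : ∏ p ∈ S, (if p ∈ S then den n p s else 1) = ∏ p ∈ S, den n p s :=
        Finset.prod_congr rfl fun p hp => if_pos hp
      rw [h5] at h4
      exact h4
    have h4 := (hprod s hs).mul h3
    refine (congrArg (fun g => HasProd g (G s * ∏ p ∈ S, den n p s)) (funext fun p => ?_)).mp h4
    by_cases hp : p.Prime
    · by_cases hn : (p : ℤ) ∣ 30 * n
      · have hMn : (p : ℤ) ∣ 30 * M := hn.trans (mul_dvd_mul_left 30 hnM)
        rw [if_neg (fun h => ((hmem p hp).1 h).2 hn), if_neg (fun h => h.2 hMn),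
          facE_bad (fun h => h.2 hn), one_mul]
      · rw [facE_good hp hn]
        by_cases hMp : (p : ℤ) ∣ 30 * M
        · rw [if_pos ((hmem p hp).2 ⟨hMp, hn⟩), if_neg (fun h => h.2 hMp),
            inv_mul_cancel₀ (den_ne hp hn hs2)]
        · rw [if_neg (fun h => hMp ((hmem p hp).1 h).1), if_pos ⟨hp, hMp⟩, mul_one]
    · rw [facE_bad (fun h => hp h.1), if_neg (fun h => hp (hSp p h).1), if_neg (fun h => hp h.1),
        one_mul]
  · refine mul_ne_zero h1 (Finset.prod_ne_zero_iff.2 fun p hp => ?_)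
    exact den_ne (hSp p hp).1 (hSp p hp).2 (by norm_num)

/-- the sum over a finite field -/
theorem SE_luc {p : ℕ} [Fact p.Prime] {n : ℤ} (h : ¬ (p : ℤ) ∣ 30 * n)
    (k : Type) [Field k] [Fintype k] [CharP k p] (r : ℕ) (hr : Fintype.card k = p ^ r) :
    SE (-(n : k)) = - luc (ap n p) p r := by
  obtain ⟨h2, h3, h5, hn⟩ := not_dvd h
  have hp : p.Prime := Fact.out
  have c0 : ∀ m : ℤ, ¬ (p : ℤ) ∣ m → (m : k) ≠ 0 := fun m hm h0 =>
    hm ((CharP.intCast_eq_zero_iff k p m).1 h0)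
  have k2 : (2 : k) ≠ 0 := by simpa using c0 2 h2
  have hk : ringChar k ≠ 2 := by
    intro h0
    apply k2
    have := ringChar.spec k 2
    rw [h0] at this
    exact_mod_cast this.2 dvd_rfl
  let _ : Algebra (ZMod p) k := ZMod.algebra k p
  have hp2 : p ≠ 2 := by
    rintro rfl
    exact h2 dvd_rfl
  have hD : ¬ (p : ℤ) ∣ 4 * (aE n) ^ 3 + 27 * (bE n) ^ 2 := by
    intro h0
    apply (good_iff hp n).2 h
    have : 2 * (-4 * (aE n) ^ 3 - 27 * (bE n) ^ 2) =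
      -2 * (4 * (aE n) ^ 3 + 27 * (bE n) ^ 2) := by ring
    rw [this]
    exact dvd_mul_of_dvd_right h0 _
  have h4 := W165.CE.points_ext hp2 (aE n) (bE n) hD (k := k)
  have hfr : Module.finrank (ZMod p) k = r := by
    have h6 := Module.card_eq_pow_finrank (K := ZMod p) (V := k)
    rw [hr, ZMod.card] at h6
    exact (Nat.pow_right_injective hp.two_le h6).symm
  rw [hfr] at h4
  have h5' := card_points hk (fun x : k => x ^ 3 + (aE n : k) * x + (bE n : k))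
  rw [h5'] at h4
  have h7 : luc (ap n p) p r = luc ((p : ℤ) - Nat.card {x : ZMod p × ZMod p //
      x.2 ^ 2 = x.1 ^ 3 + (aE n : ZMod p) * x.1 + (bE n : ZMod p)}) p r := rfl
  have e1 : ∀ t : k, t ^ 3 + (aE n : k) * t + (bE n : k) = cub (-(n : k)) t := by
    intro t
    unfold aE bE cub
    push_cast
    ring
  simp_rw [e1] at h4
  unfold SE
  rw [h7]
  linarith

/-- `ω` are the eigenvalues of Frobenius at `p` on the third cohomology -/
def IsFrobP (A B : Matrix (Fin 6) (Fin 6) ℤ) (p : ℕ) (ω : Fin 4 → ℂ) : Prop :=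
  (∀ j, ‖ω j‖ = (p : ℝ) ^ ((3 : ℝ) / 2)) ∧
    ∀ (k : Type) [Field k] [Fintype k] [CharP k p] (r : ℕ), Fintype.card k = p ^ r →
      (numP (A.map (Int.castRingHom k)) (B.map (Int.castRingHom k)) : ℂ) =
        1 + (p : ℂ) ^ r + (p : ℂ) ^ (2 * r) + (p : ℂ) ^ (3 * r) - ∑ j, ω j ^ r

theorem frobP {n n' m : ℤ} {A B : Matrix (Fin 6) (Fin 6) ℤ} (hAB : IsPencil n n' m A B)
    {p : ℕ} [Fact p.Prime] (h : ¬ (p : ℤ) ∣ 30 * (n * n' * m)) :
    ∃ ω : Fin 4 → ℂ, IsFrobP A B p ω ∧ ∀ s : ℂ, ∏ j, (1 - ω j * (p : ℂ) ^ (-s)) =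
      den n p (s - 1) * den n' p (s - 1) := by
  have hp : p.Prime := Fact.out
  have hn : ¬ (p : ℤ) ∣ 30 * n := fun h0 => h (by
    rw [show 30 * (n * n' * m) = 30 * n * (n' * m) by ring]
    exact dvd_mul_of_dvd_left h0 _)
  have hn' : ¬ (p : ℤ) ∣ 30 * n' := fun h0 => h (by
    rw [show 30 * (n * n' * m) = 30 * n' * (n * m) by ring]
    exact dvd_mul_of_dvd_left h0 _)
  have hm : ¬ (p : ℤ) ∣ m := fun h0 => h (by
    rw [show 30 * (n * n' * m) = m * (30 * n * n') by ring]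
    exact dvd_mul_of_dvd_left h0 _)
  obtain ⟨h2, h3, h5, hnn⟩ := not_dvd hn
  obtain ⟨_, _, _, hnn'⟩ := not_dvd hn'
  obtain ⟨α, β, a1, a2, a3, a4⟩ := eigen hn
  obtain ⟨α', β', b1, b2, b3, b4⟩ := eigen hn'
  have hp0 : (0 : ℝ) < p := by exact_mod_cast hp.pos
  have hpc : (p : ℂ) ≠ 0 := Nat.cast_ne_zero.2 hp.ne_zero
  have hpw : (p : ℝ) * Real.sqrt p = (p : ℝ) ^ ((3 : ℝ) / 2) := by
    rw [Real.sqrt_eq_rpow, show ((3 : ℝ) / 2) = 1 + 1 / 2 by norm_num, Real.rpow_add hp0,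
      Real.rpow_one]
  refine ⟨![p * α, p * β, p * α', p * β'], ⟨?_, ?_⟩, ?_⟩
  · intro j
    fin_cases j <;>
      simp only [Fin.mk_zero, Fin.mk_one, Fin.reduceFinMk, Matrix.cons_val_zero,
        Matrix.cons_val_one, Matrix.cons_val, norm_mul, a3, a4, b3, b4, Complex.norm_natCast] <;>
      exact hpw
  · intro k _ _ _ r hr
    have c0 : ∀ m : ℤ, ¬ (p : ℤ) ∣ m → (m : k) ≠ 0 := fun m hm h0 =>
      hm ((CharP.intCast_eq_zero_iff k p m).1 h0)
    have k2 : (2 : k) ≠ 0 := by simpa using c0 2 h2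
    have k3 : (3 : k) ≠ 0 := by simpa using c0 3 h3
    have k5 : (5 : k) ≠ 0 := by simpa using c0 5 h5
    have h6 := hAB.numP k2 k3 k5 (c0 n hnn) (c0 n' hnn') (c0 m hm)
    rw [SE_luc hn k r hr, SE_luc hn' k r hr, hr] at h6
    have h7 := congrArg (fun z : ℤ => (z : ℂ)) h6
    push_cast at h7
    rw [luc_eq a1 (by rw [a2]; norm_cast), luc_eq b1 (by rw [b2]; norm_cast)] at h7
    rw [h7]
    simp only [Fin.sum_univ_four, Matrix.cons_val_zero, Matrix.cons_val_one, Matrix.cons_val]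
    rw [mul_pow, mul_pow, mul_pow, mul_pow]
    ring
  · intro s
    simp only [Fin.prod_univ_four, Matrix.cons_val_zero, Matrix.cons_val_one, Matrix.cons_val]
    have e1 : (p : ℂ) ^ (-(s - 1)) = p * (p : ℂ) ^ (-s) := by
      rw [show -(s - 1) = 1 + -s by ring, Complex.cpow_add _ _ hpc, Complex.cpow_one]
    have e2 : (p : ℂ) ^ (1 - 2 * (s - 1)) = (p : ℂ) ^ 3 * ((p : ℂ) ^ (-s)) ^ 2 := by
      have h3 : (p : ℂ) ^ 3 = (p : ℂ) ^ (3 : ℂ) := by
        rw [← Complex.cpow_natCast]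
        norm_num
      rw [show 1 - 2 * (s - 1) = 3 + (-s + -s) by ring, Complex.cpow_add _ _ hpc,
        Complex.cpow_add _ _ hpc, h3]
      ring
    have e3 : den n p (s - 1) = (1 - (p : ℂ) * α * (p : ℂ) ^ (-s)) *
        (1 - (p : ℂ) * β * (p : ℂ) ^ (-s)) := by
      unfold den
      rw [e1, e2, ← a1]
      have : (p : ℂ) ^ 3 = (p : ℂ) ^ 2 * (α * β) := by rw [a2]; ring
      rw [this]
      ring
    have e4 : den n' p (s - 1) = (1 - (p : ℂ) * α' * (p : ℂ) ^ (-s)) *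
        (1 - (p : ℂ) * β' * (p : ℂ) ^ (-s)) := by
      unfold den
      rw [e1, e2, ← b1]
      have : (p : ℂ) ^ 3 = (p : ℂ) ^ 2 * (α' * β') := by rw [b2]; ring
      rw [this]
      ring
    rw [e3, e4]
    ring

/-- the `L`-function of the third cohomology -/
theorem eulerP {n n' m : ℤ} (hn : n ≠ 0) (hn' : n' ≠ 0) (hm : m ≠ 0)
    {A B : Matrix (Fin 6) (Fin 6) ℤ} (hAB : IsPencil n n' m A B) {G G' : ℂ → ℂ}
    (hG : Differentiable ℂ G)
    (hprod : ∀ s : ℂ, (3 : ℝ) / 2 < s.re → HasProd (fun p : ℕ => facE n p s) (G s))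
    (h1 : G 1 ≠ 0) (hG' : Differentiable ℂ G')
    (hprod' : ∀ s : ℂ, (3 : ℝ) / 2 < s.re → HasProd (fun p : ℕ => facE n' p s) (G' s))
    (h1' : G' 1 ≠ 0) :
    ∃ ω : ℕ → Fin 4 → ℂ,
      (∀ p : ℕ, p.Prime → ¬ (p : ℤ) ∣ 30 * (n * n' * m) → IsFrobP A B p (ω p)) ∧
      ∃ L : ℂ → ℂ, Differentiable ℂ L ∧
        (∀ s : ℂ, (5 : ℝ) / 2 < s.re →
          HasProd (fun p : ℕ => if p.Prime ∧ ¬ (p : ℤ) ∣ 30 * (n * n' * m) then
            ∏ j, (1 - ω p j * (p : ℂ) ^ (-s))⁻¹ else 1) (L s)) ∧ L 2 ≠ 0 := by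
  have hM : n * n' * m ≠ 0 := mul_ne_zero (mul_ne_zero hn hn') hm
  obtain ⟨H, a1, a2, a3⟩ := remove hM ⟨n' * m, by ring⟩ hG hprod h1
  obtain ⟨H', b1, b2, b3⟩ := remove hM ⟨n * m, by ring⟩ hG' hprod' h1'
  have hex : ∀ p : ℕ, ∃ ω : Fin 4 → ℂ, (p.Prime ∧ ¬ (p : ℤ) ∣ 30 * (n * n' * m)) →
      (IsFrobP A B p ω ∧ ∀ s : ℂ, ∏ j, (1 - ω j * (p : ℂ) ^ (-s)) =
        den n p (s - 1) * den n' p (s - 1)) := by
    intro p
    by_cases hp : p.Prime ∧ ¬ (p : ℤ) ∣ 30 * (n * n' * m)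
    · have : Fact p.Prime := ⟨hp.1⟩
      obtain ⟨ω, h⟩ := frobP hAB hp.2
      exact ⟨ω, fun _ => h⟩
    · exact ⟨fun _ => 0, fun h => absurd h hp⟩
  choose ω hω using hex
  refine ⟨ω, fun p hp h => (hω p ⟨hp, h⟩).1, fun s => H (s - 1) * H' (s - 1), ?_, ?_, ?_⟩
  · exact (a1.comp (differentiable_id.sub_const 1)).mul (b1.comp (differentiable_id.sub_const 1))
  · intro s hs
    have hs1 : (3 : ℝ) / 2 < (s - 1).re := by
      rw [Complex.sub_re, Complex.one_re]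
      linarith
    have h2 := (a2 (s - 1) hs1).mul (b2 (s - 1) hs1)
    refine (congrArg (fun g => HasProd g (H (s - 1) * H' (s - 1))) (funext fun p => ?_)).mp h2
    by_cases hp : p.Prime ∧ ¬ (p : ℤ) ∣ 30 * (n * n' * m)
    · rw [if_pos hp, if_pos hp, if_pos hp, Finset.prod_inv_distrib, (hω p hp).2 s, mul_inv]
    · rw [if_neg hp, if_neg hp, if_neg hp, one_mul]
  · have : (2 : ℂ) - 1 = 1 := by norm_num
    simp only [this]
    exact mul_ne_zero a3 b3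

end Pool.Agent.N844.QP
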