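import Pool.Agent.N844.QP.Iso
import Pool.Agent.W165.CE.FF

/-!
The number of points of the threefolds over finite fields.
-/

set_option autoImplicit false

namespace Pool.Agent.N844.QP

open Finset
open scoped LinearAlgebra.Projectivization

/-- the points of a cone -/
theorem proj_card {k V : Type*} [Field k] [Fintype k] [AddCommGroup V] [Module k V]
    (P : V → Prop) (hP : ∀ (c : kˣ) (v : V), P (c • v) ↔ P v) :
    Nat.card {v : V // v ≠ 0 ∧ P v} = Nat.card {p : ℙ k V // P p.rep} * (Fintype.card k - 1) := by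
  classical
  have hu : Nat.card kˣ = Fintype.card k - 1 := by
    rw [Nat.card_eq_fintype_card, Fintype.card_units]
  rw [← hu, ← Nat.card_prod]
  refine Nat.card_congr (Equiv.ofBijective
    (fun x : {p : ℙ k V // P p.rep} × kˣ => (⟨x.2 • x.1.1.rep,
      ⟨by rw [Units.smul_def]; exact smul_ne_zero x.2.ne_zero x.1.1.rep_nonzero,
        (hP _ _).2 x.1.2⟩⟩ : {v : V // v ≠ 0 ∧ P v})) ⟨?_, ?_⟩).symm
  · rintro ⟨⟨p, hp⟩, c⟩ ⟨⟨p', hp'⟩, c'⟩ h
    have h1 : c • p.rep = c' • p'.rep := congrArg Subtype.val h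
    have h2 : p = p' := by
      rw [← p.mk_rep, ← p'.mk_rep, Projectivization.mk_eq_mk_iff]
      refine ⟨c⁻¹ * c', ?_⟩
      rw [mul_smul, ← h1, inv_smul_smul]
    subst h2
    have h3 : c = c' := by
      have h4 : (c : k) • p.rep = (c' : k) • p.rep := h1
      exact Units.ext (smul_left_injective k p.rep_nonzero h4)
    subst h3
    rfl
  · rintro ⟨v, hv, hPv⟩
    obtain ⟨a, ha⟩ := Projectivization.exists_smul_eq_mk_rep k v hv
    refine ⟨⟨⟨Projectivization.mk k v hv, ?_⟩, a⁻¹⟩, ?_⟩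
    · rw [← ha]
      exact (hP _ _).2 hPv
    · apply Subtype.ext
      change a⁻¹ • (Projectivization.mk k v hv).rep = v
      rw [← ha, inv_smul_smul]

/-- the equations of the threefold -/
def OnX {k : Type*} [Field k] (n : k) (y : Fin 6 → k) : Prop :=
  10 * n * y 0 ^ 2 + y 1 ^ 2 + y 2 ^ 2 + y 3 ^ 2 + 3 * y 4 ^ 2 - 5 * y 5 ^ 2 = 0 ∧
    -10 * n * y 0 ^ 2 + y 1 ^ 2 - 5 * y 2 ^ 2 + 5 * y 3 ^ 2 + 50 * y 4 * y 5 = 0

/-- six coordinates -/
def eqv (k : Type*) : (Fin 6 → k) ≃ K6 k where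
  toFun y := (y 0, y 1, y 2, y 3, y 4, y 5)
  invFun y := ![y.1, y.2.1, y.2.2.1, y.2.2.2.1, y.2.2.2.2.1, y.2.2.2.2.2]
  left_inv y := by
    funext i
    fin_cases i <;> rfl
  right_inv y := rfl

lemma onX_iff {k : Type*} [Field k] (n : k) (y : Fin 6 → k) :
    OnX n y ↔ (Q2 (-n)).ev (eqv k y) = 0 ∧ (Q1 (-n)).ev (eqv k y) = 0 := by
  unfold OnX Q1 Q2 Co.ev eqv
  simp only
  constructor
  · rintro ⟨h1, h2⟩
    exact ⟨by linear_combination h2, by linear_combination h1⟩
  · rintro ⟨h1, h2⟩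
    exact ⟨by linear_combination h2, by linear_combination h1⟩

lemma onX_smul {k : Type*} [Field k] (n : k) (c : kˣ) (y : Fin 6 → k) :
    OnX n (c • y) ↔ OnX n y := by
  have hc : (c : k) ^ 2 ≠ 0 := pow_ne_zero _ c.ne_zero
  unfold OnX
  simp only [Pi.smul_apply, Units.smul_def, smul_eq_mul]
  constructor
  · rintro ⟨h1, h2⟩
    exact ⟨mul_left_cancel₀ hc (by linear_combination h1), mul_left_cancel₀ hc (by linear_combination h2)⟩
  · rintro ⟨h1, h2⟩
    exact ⟨by linear_combination (c : k) ^ 2 * h1, by linear_combination (c : k) ^ 2 * h2⟩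

variable {k : Type*} [Field k] [Fintype k] [DecidableEq k]

omit [Fintype k] [DecidableEq k] in
lemma ok1 (h2 : (2 : k) ≠ 0) (h3 : (3 : k) ≠ 0) (h5 : (5 : k) ≠ 0) {m : k} (hm : m ≠ 0) :
    (Q1 m).Ok := by
  have h10 : (10 : k) ≠ 0 := by
    have : (10 : k) = 2 * 5 := by norm_num
    rw [this]; exact mul_ne_zero h2 h5
  have ha : (-10 * m : k) ≠ 0 := mul_ne_zero (neg_ne_zero.2 h10) hm
  have hb : (0 ^ 2 - 3 * (-5) : k) ≠ 0 := by
    have : (0 ^ 2 - 3 * (-5) : k) = 3 * 5 := by ring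
    rw [this]; exact mul_ne_zero h3 h5
  exact ⟨Or.inl ha, Or.inl ha, Or.inl ha, Or.inl one_ne_zero, Or.inl one_ne_zero,
    Or.inl one_ne_zero, fun _ => hb, fun _ => hb, fun _ => hb, fun _ => hb, fun h => absurd h hb⟩

omit [Fintype k] [DecidableEq k] in
lemma ok2 (h2 : (2 : k) ≠ 0) (h3 : (3 : k) ≠ 0) (h5 : (5 : k) ≠ 0) {m : k} (hm : m ≠ 0) (x : k) :
    ((Q2 m).lin (Q1 m) x).Ok := by
  have h10 : (10 : k) ≠ 0 := by
    have : (10 : k) = 2 * 5 := by norm_num
    rw [this]; exact mul_ne_zero h2 h5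
  have hp : ∀ a b c : ℕ, ((2 ^ a * 3 ^ b * 5 ^ c : ℕ) : k) ≠ 0 := fun a b c => by
    push_cast
    exact mul_ne_zero (mul_ne_zero (pow_ne_zero _ h2) (pow_ne_zero _ h3)) (pow_ne_zero _ h5)
  have e1 : 10 * m + x * (-10 * m) = (-10 * m) * (x - 1) := by ring
  have ha : (-10 * m : k) ≠ 0 := mul_ne_zero (neg_ne_zero.2 h10) hm
  have z1 : 10 * m + x * (-10 * m) = 0 → x = 1 := fun h => by
    rw [e1] at h
    exact sub_eq_zero.1 ((mul_eq_zero.1 h).resolve_left ha)
  have z2 : 1 + x * 1 = 0 → x = -1 := fun h => by linear_combination h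
  have z3 : -5 + x * 1 = 0 → x = 5 := fun h => by linear_combination h
  have z4 : 5 + x * 1 = 0 → x = -5 := fun h => by linear_combination h
  have n12 : (1 : k) ≠ -1 := fun h => hp 1 0 0 (by push_cast; linear_combination h)
  have n13 : (1 : k) ≠ 5 := fun h => hp 2 0 0 (by push_cast; linear_combination -h)
  have n14 : (1 : k) ≠ -5 := fun h => hp 1 1 0 (by push_cast; linear_combination h)
  have n23 : (-1 : k) ≠ 5 := fun h => hp 1 1 0 (by push_cast; linear_combination -h)
  have n24 : (-1 : k) ≠ -5 := fun h => hp 2 0 0 (by push_cast; linear_combination h)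
  have n34 : (5 : k) ≠ -5 := fun h => hp 1 0 1 (by push_cast; linear_combination h)
  have b1 : x = 1 → (25 + x * 0) ^ 2 - (0 + x * 3) * (0 + x * (-5)) ≠ (0 : k) := fun h h' => by
    subst h
    exact hp 7 0 1 (by push_cast; linear_combination h')
  have b2 : x = -1 → (25 + x * 0) ^ 2 - (0 + x * 3) * (0 + x * (-5)) ≠ (0 : k) := fun h h' => by
    subst h
    exact hp 7 0 1 (by push_cast; linear_combination h')
  have b3 : x = 5 → (25 + x * 0) ^ 2 - (0 + x * 3) * (0 + x * (-5)) ≠ (0 : k) := fun h h' => by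
    subst h
    exact hp 3 0 3 (by push_cast; linear_combination h')
  have b4 : x = -5 → (25 + x * 0) ^ 2 - (0 + x * 3) * (0 + x * (-5)) ≠ (0 : k) := fun h h' => by
    subst h
    exact hp 3 0 3 (by push_cast; linear_combination h')
  have ba : (25 + x * 0) ^ 2 - (0 + x * 3) * (0 + x * (-5)) = (0 : k) → 0 + x * 3 ≠ (0 : k) := by
    intro h h'
    have hx : x = 0 := by
      have : x * 3 = 0 := by linear_combination h'
      exact (mul_eq_zero.1 this).resolve_right h3
    subst hx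
    exact hp 0 0 4 (by push_cast; linear_combination h)
  refine ⟨?_, ?_, ?_, ?_, ?_, ?_, fun h => b1 (z1 h), fun h => b2 (z2 h), fun h => b3 (z3 h),
    fun h => b4 (z4 h), ba⟩
  all_goals
    by_contra hcon
    rw [not_or, not_not, not_not] at hcon
    obtain ⟨g1, g2⟩ := hcon
  · exact n12 ((z1 g1).symm.trans (z2 g2))
  · exact n13 ((z1 g1).symm.trans (z3 g2))
  · exact n14 ((z1 g1).symm.trans (z4 g2))
  · exact n23 ((z2 g1).symm.trans (z3 g2))
  · exact n24 ((z2 g1).symm.trans (z4 g2))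
  · exact n34 ((z3 g1).symm.trans (z4 g2))

/-- the number of points of the threefold over a finite field -/
noncomputable def numX {k : Type*} [Field k] (n : k) : ℕ :=
  Nat.card {P : ℙ k (Fin 6 → k) // OnX n P.rep}

/-- **the number of points of the threefold** -/
theorem numX_eq (h2 : (2 : k) ≠ 0) (h3 : (3 : k) ≠ 0) (h5 : (5 : k) ≠ 0) {n : k} (hn : n ≠ 0) :
    (numX n : ℤ) = 1 + (Fintype.card k : ℤ) + (Fintype.card k : ℤ) ^ 2 +
      (Fintype.card k : ℤ) ^ 3 + 2 * (Fintype.card k : ℤ) *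
        ∑ t : k, quadraticChar k (t ^ 3 + (-12987 * n ^ 2) * t + 263466 * n ^ 3) := by
  have hk : ringChar k ≠ 2 := fun h => h2 (by
    have := ringChar.spec k 2
    rw [h] at this
    exact_mod_cast this.2 dvd_rfl)
  have hm : -n ≠ 0 := neg_ne_zero.2 hn
  have h1 := count hk (Q2 (-n)) (Q1 (-n)) (ok1 h2 h3 h5 hm) (ok2 h2 h3 h5 hm)
  simp_rw [dis_lin, dis_Q1] at h1
  rw [sum_hh hk h3 h5 hm] at h1
  have e1 : ∀ t : k, cub (-n) t = t ^ 3 + (-12987 * n ^ 2) * t + 263466 * n ^ 3 := by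
    intro t
    unfold cub
    ring
  simp_rw [e1] at h1
  set S : ℤ := ∑ t : k, quadraticChar k (t ^ 3 + (-12987 * n ^ 2) * t + 263466 * n ^ 3) with hS
  -- all the solutions
  have e2 : ((univ.filter fun y : K6 k => (Q2 (-n)).ev y = 0 ∧ (Q1 (-n)).ev y = 0).card : ℤ) =
      (Nat.card {v : Fin 6 → k // v ≠ 0 ∧ OnX n v} : ℤ) + 1 := by
    have e3 : (univ.filter fun y : K6 k => (Q2 (-n)).ev y = 0 ∧ (Q1 (-n)).ev y = 0).card =
        (univ.filter fun y : Fin 6 → k => (Q2 (-n)).ev (eqv k y) = 0 ∧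
          (Q1 (-n)).ev (eqv k y) = 0).card := by
      refine (Finset.card_bij (fun y _ => eqv k y) ?_ ?_ ?_).symm
      · intro y hy
        rw [Finset.mem_filter] at hy ⊢
        exact ⟨mem_univ _, hy.2⟩
      · intro y _ z _ h
        exact (eqv k).injective h
      · intro z hz
        refine ⟨(eqv k).symm z, ?_, by simp⟩
        rw [Finset.mem_filter] at hz ⊢
        refine ⟨mem_univ _, ?_⟩
        rw [Equiv.apply_symm_apply]
        exact hz.2
    have e4 : (univ.filter fun y : Fin 6 → k => (Q2 (-n)).ev (eqv k y) = 0 ∧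
          (Q1 (-n)).ev (eqv k y) = 0) =
        insert 0 (univ.filter fun y : Fin 6 → k => y ≠ 0 ∧ (Q2 (-n)).ev (eqv k y) = 0 ∧
          (Q1 (-n)).ev (eqv k y) = 0) := by
      ext y
      simp only [Finset.mem_filter, Finset.mem_univ, true_and, Finset.mem_insert]
      by_cases hy : y = 0
      · subst hy
        rw [← onX_iff]
        simp [OnX]
      · simp [hy]
    rw [e3, e4, Finset.card_insert_of_notMem (by simp)]
    push_cast
    congr 2
    haveI : DecidablePred (fun v : Fin 6 → k => v ≠ 0 ∧ OnX n v) := Classical.decPred _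
    rw [Nat.card_eq_fintype_card, Fintype.card_subtype]
    refine congrArg Finset.card (Finset.filter_congr fun y _ => ?_)
    rw [onX_iff]
  rw [e2, proj_card (k := k) (OnX n) (fun c v => onX_smul n c v)] at h1
  have hq : 1 < Fintype.card k := Fintype.one_lt_card
  have hq1 : ((Fintype.card k : ℤ) - 1) ≠ 0 := by
    have : (1 : ℤ) < Fintype.card k := by exact_mod_cast hq
    omega
  push_cast [Nat.cast_sub hq.le] at h1
  apply mul_left_cancel₀ hq1
  unfold numX
  linear_combination h1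

end Pool.Agent.N844.QP
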