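import Mathlib

/-!
Symmetric matrices over fields: diagonalization and pencils.
-/

set_option autoImplicit false

namespace Pool.Agent.N844.QP

open Finset Matrix Polynomial

variable {k : Type*} [Field k] {N : ℕ}

/-- the value of the quadratic form -/
def qf {R : Type*} [CommRing R] {N : ℕ} (M : Matrix (Fin N) (Fin N) R) (y : Fin N → R) : R :=
  y ⬝ᵥ (M *ᵥ y)

theorem diagonalize (h2 : (2 : k) ≠ 0) (M : Matrix (Fin N) (Fin N) k) (hM : M.IsSymm) :
    ∃ P : Matrix (Fin N) (Fin N) k, IsUnit P.det ∧ ∃ w : Fin N → k,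
      Pᵀ * M * P = diagonal w := by
  let _ : Invertible (2 : k) := invertibleOfNonzero h2
  set B : LinearMap.BilinForm k (Fin N → k) := Matrix.toBilin' M with hB
  have hBs : LinearMap.IsSymm B := by
    refine ⟨fun x y => ?_⟩
    rw [hB, RingHom.id_apply, Matrix.toBilin'_apply', Matrix.toBilin'_apply']
    rw [dotProduct_mulVec, ← mulVec_transpose, hM.eq, dotProduct_comm]
  obtain ⟨v, hv⟩ := LinearMap.BilinForm.exists_orthogonal_basis hBs
  have hN : Module.finrank k (Fin N → k) = N := by simp
  let v' := v.reindex (finCongr hN)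
  refine ⟨(Pi.basisFun k (Fin N)).toMatrix v', ?_, fun i => B (v' i) (v' i), ?_⟩
  · let _ := (Pi.basisFun k (Fin N)).invertibleToMatrix v'
    exact (Matrix.isUnit_iff_isUnit_det _).1
      (isUnit_of_invertible ((Pi.basisFun k (Fin N)).toMatrix v'))
  · have h1 := LinearMap.BilinForm.toMatrix_mul_basis_toMatrix (b := Pi.basisFun k (Fin N)) v' B
    have h3 : LinearMap.BilinForm.toMatrix (Pi.basisFun k (Fin N)) B = M := by
      rw [LinearMap.BilinForm.toMatrix_basisFun, hB, LinearMap.BilinForm.toMatrix'_toBilin']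
    rw [h3] at h1
    rw [h1]
    ext i j
    rw [LinearMap.BilinForm.toMatrix_apply]
    by_cases hij : i = j
    · subst hij
      rw [diagonal_apply_eq]
    · rw [diagonal_apply_ne _ hij]
      have : (finCongr hN).symm i ≠ (finCongr hN).symm j := fun h =>
        hij ((finCongr hN).symm.injective h)
      have h4 := hv this
      simpa [v', Module.Basis.reindex_apply] using h4

section det

variable {R : Type*} [CommRing R]

lemma dvd_row (M : Matrix (Fin N) (Fin N) R) (i : Fin N) (x : R) (r : Fin N → R)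
    (h : M i = x • r) : M.det = x * (M.updateRow i r).det := by
  rw [← det_updateRow_smul, ← h]
  congr 1
  exact (updateRow_eq_self M i).symm

lemma dvd_col (M : Matrix (Fin N) (Fin N) R) (i : Fin N) (x : R) (c : Fin N → R)
    (h : ∀ j, M j i = x * c j) : M.det = x * (M.updateCol i c).det := by
  rw [← det_updateCol_smul]
  congr 1
  ext a b
  rw [updateCol_apply]
  split_ifs with hb
  · subst hb
    rw [h]
    rfl
  · rfl

/-- two rows divisible by `x` -/
lemma two_rows (M : Matrix (Fin N) (Fin N) R) {i j : Fin N} (hij : i ≠ j) (x : R)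
    (r s : Fin N → R) (hi : M i = x • r) (hj : M j = x • s) : x ^ 2 ∣ M.det := by
  rw [dvd_row M i x r hi, dvd_row (M.updateRow i r) j x s (by
    rw [updateRow_ne (Ne.symm hij)]
    exact hj), ← mul_assoc, ← pow_two]
  exact dvd_mul_right _ _

/-- a row and a column divisible by `x`, with a zero in the intersection -/
lemma row_col (M : Matrix (Fin N) (Fin N) R) (i : Fin N) (x : R) (r c : Fin N → R)
    (hi : M i = x • r) (h0 : r i = 0) (hc : ∀ j, M j i = x * c j) : x ^ 2 ∣ M.det := by
  rw [dvd_row M i x r hi, dvd_col (M.updateRow i r) i x (fun j => if j = i then 0 else c j) (by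
    intro j
    rw [updateRow_apply]
    by_cases hji : j = i
    · rw [if_pos hji, if_pos hji, h0, mul_zero]
    · rw [if_neg hji, if_neg hji, hc]), ← mul_assoc, ← pow_two]
  exact dvd_mul_right _ _

end det

/-- the matrix `X A + M` over the polynomials -/
noncomputable def pm (A M : Matrix (Fin N) (Fin N) k) : Matrix (Fin N) (Fin N) k[X] :=
  (X : k[X]) • A.map C + M.map C

/-- the discriminant polynomial `det (X A - B)` -/
noncomputable def dp {R : Type*} [CommRing R] (A B : Matrix (Fin N) (Fin N) R) : R[X] :=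
  ((X : R[X]) • A.map C - B.map C).det

lemma dp_eval {R : Type*} [CommRing R] (A B : Matrix (Fin N) (Fin N) R) (x : R) :
    (dp A B).eval x = (x • A - B).det := by
  unfold dp
  rw [← coe_evalRingHom, RingHom.map_det]
  congr 1
  ext i j
  simp only [RingHom.mapMatrix_apply, map_apply, Matrix.sub_apply,
    Matrix.smul_apply, smul_eq_mul, coe_evalRingHom, eval_sub, eval_mul, eval_X, eval_C]

lemma pm_eval (A M : Matrix (Fin N) (Fin N) k) (x : k) :
    (pm A M).det.eval x = (x • A + M).det := by
  unfold pm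
  rw [← coe_evalRingHom, RingHom.map_det]
  congr 1
  ext i j
  simp only [RingHom.mapMatrix_apply, map_apply, Matrix.add_apply,
    Matrix.smul_apply, smul_eq_mul, coe_evalRingHom, eval_add, eval_mul, eval_X, eval_C]

lemma dp_shift (A B : Matrix (Fin N) (Fin N) k) (x : k) :
    (dp A B).comp (X + C x) = (pm A (x • A - B)).det := by
  unfold dp pm
  rw [← coe_compRingHom_apply, RingHom.map_det]
  congr 1
  refine Matrix.ext fun i j => ?_
  simp only [RingHom.mapMatrix_apply, map_apply, Matrix.sub_apply, Matrix.smul_apply, smul_eq_mul,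
    coe_compRingHom_apply, X_comp, C_comp, Matrix.add_apply, map_sub, map_mul]
  ring

/-- `X²` divides the shifted polynomial: the derivative vanishes -/
lemma deriv_zero (f : k[X]) (x : k) (h : X ^ 2 ∣ f.comp (X + C x)) : f.derivative.eval x = 0 := by
  obtain ⟨g, hg⟩ := h
  have h1 := congrArg (fun p : k[X] => (derivative p).eval 0) hg
  simp only [derivative_comp, derivative_mul, derivative_pow, derivative_X, derivative_add,
    derivative_C] at h1
  simpa [eval_comp] using h1

lemma conj_pm (P A M : Matrix (Fin N) (Fin N) k) :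
    (P.map C)ᵀ * pm A M * P.map C = pm (Pᵀ * A * P) (Pᵀ * M * P) := by
  unfold pm
  rw [Matrix.mul_add, Matrix.add_mul, Matrix.mul_smul, Matrix.smul_mul]
  congr 1
  · congr 1
    rw [Matrix.map_mul, Matrix.map_mul]
    rfl
  · rw [Matrix.map_mul, Matrix.map_mul]
    rfl

lemma dvd_of_conj (P A M : Matrix (Fin N) (Fin N) k) (hP : IsUnit P.det)
    (h : X ^ 2 ∣ (pm (Pᵀ * A * P) (Pᵀ * M * P)).det) : X ^ 2 ∣ (pm A M).det := by
  rw [← conj_pm, det_mul, det_mul, det_transpose] at h
  have h1 : (P.map C).det = C P.det := by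
    rw [← RingHom.mapMatrix_apply, ← RingHom.map_det]
  rw [h1] at h
  have h2 : C P.det * (pm A M).det * C P.det = C (P.det * P.det) * (pm A M).det := by
    rw [C_mul]
    ring
  rw [h2] at h
  have h3 : IsUnit (C (P.det * P.det)) := isUnit_C.2 (hP.mul hP)
  exact (h3.dvd_mul_left).1 h

/-- a member of the pencil with a simple root has corank at most one -/
theorem corank_one {A B : Matrix (Fin N) (Fin N) k} {x : k}
    (hf : (dp A B).derivative.eval x ≠ 0) {P : Matrix (Fin N) (Fin N) k} (hP : IsUnit P.det)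
    {w : Fin N → k} (hw : Pᵀ * (x • A - B) * P = diagonal w) (i j : Fin N) (hi : w i = 0)
    (hj : w j = 0) : i = j := by
  by_contra hij
  apply hf
  apply deriv_zero
  rw [dp_shift]
  apply dvd_of_conj P _ _ hP
  rw [hw]
  have key : ∀ a : Fin N, w a = 0 → (pm (Pᵀ * A * P) (diagonal w)) a =
      (X : k[X]) • fun b => C ((Pᵀ * A * P) a b) := by
    intro a ha
    funext b
    simp only [pm, Matrix.add_apply, Matrix.smul_apply, map_apply, Pi.smul_apply]
    by_cases hab : a = b
    · subst hab
      rw [diagonal_apply_eq, ha]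
      simp
    · rw [diagonal_apply_ne _ hab]
      simp
  exact two_rows _ hij X _ _ (key i hi) (key j hj)

/-- the base locus of the pencil is smooth -/
theorem smooth {A B : Matrix (Fin N) (Fin N) k} (hA : A.IsSymm) (hB : B.IsSymm)
    (hA0 : A.det ≠ 0) (hf : ∀ x : k, (dp A B).eval x = 0 → (dp A B).derivative.eval x ≠ 0)
    {y : Fin N → k} (hy : y ≠ 0) (h1 : qf A y = 0) (_h2 : qf B y = 0) :
    LinearIndependent k ![A *ᵥ y, B *ᵥ y] := by
  rw [LinearIndependent.pair_iff]
  intro s t hst
  by_contra hcon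
  have ht : t ≠ 0 := by
    rintro rfl
    rw [zero_smul, add_zero] at hst
    have hs : s ≠ 0 := fun h => hcon ⟨h, rfl⟩
    have h3 : A *ᵥ y = 0 := (smul_eq_zero.1 hst).resolve_left hs
    exact hy (eq_zero_of_mulVec_eq_zero hA0 h3)
  set x : k := -s / t with hx
  have hM : (x • A - B) *ᵥ y = 0 := by
    rw [sub_mulVec, smul_mulVec]
    have h3 : t • (x • A *ᵥ y - B *ᵥ y) = 0 := by
      rw [smul_sub, smul_smul, hx, mul_div_cancel₀ _ ht, neg_smul, ← neg_add', hst, neg_zero]
    exact (smul_eq_zero.1 h3).resolve_left ht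
  have hdet : (dp A B).eval x = 0 := by
    rw [dp_eval]
    by_contra h3
    exact hy (eq_zero_of_mulVec_eq_zero h3 hM)
  apply hf x hdet
  apply deriv_zero
  rw [dp_shift]
  obtain ⟨i, hi⟩ : ∃ i, y i ≠ 0 := Function.ne_iff.1 hy
  set P : Matrix (Fin N) (Fin N) k := (1 : Matrix (Fin N) (Fin N) k).updateCol i y with hPdef
  have hPdet : P.det = y i := by
    rw [hPdef, ← cramer_apply, cramer_one]
    rfl
  have hPi : P *ᵥ (Pi.single i 1) = y := by
    rw [mulVec_single_one]
    ext a
    simp [hPdef]
  apply dvd_of_conj P _ _ (isUnit_iff_ne_zero.2 (hPdet ▸ hi))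
  have hMs : (x • A - B).IsSymm := (hA.smul x).sub hB
  -- the column `i` of `Pᵀ M P` vanishes
  have hcolM : ∀ a, (Pᵀ * (x • A - B) * P) a i = 0 := by
    intro a
    have h3 : (Pᵀ * (x • A - B) * P) *ᵥ (Pi.single i 1) = 0 := by
      rw [← mulVec_mulVec, hPi, ← mulVec_mulVec, hM, mulVec_zero]
    have h4 := congrFun h3 a
    rwa [mulVec_single_one] at h4
  have hrowM : ∀ a, (Pᵀ * (x • A - B) * P) i a = 0 := by
    intro a
    have h3 : (Pᵀ * (x • A - B) * P).IsSymm := by
      unfold IsSymm
      rw [transpose_mul, transpose_mul, transpose_transpose, hMs.eq, Matrix.mul_assoc]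
    rw [← h3.apply]
    exact hcolM a
  have hii : (Pᵀ * A * P) i i = 0 := by
    have h3 : (Pᵀ * A * P) i i = (Pi.single i 1 : Fin N → k) ⬝ᵥ
        ((Pᵀ * A * P) *ᵥ (Pi.single i 1)) := by
      rw [mulVec_single_one, single_one_dotProduct]
      rfl
    rw [h3, ← mulVec_mulVec, ← mulVec_mulVec, hPi, dotProduct_mulVec, vecMul_transpose, hPi]
    exact h1
  refine row_col _ i X (fun b => C ((Pᵀ * A * P) i b)) (fun b => C ((Pᵀ * A * P) b i)) ?_ ?_ ?_
  · funext b
    simp only [pm, Matrix.add_apply, Matrix.smul_apply, map_apply, Pi.smul_apply]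
    rw [hrowM b]
    simp
  · show C _ = _
    rw [hii, C_0]
  · intro b
    simp only [pm, Matrix.add_apply, Matrix.smul_apply, map_apply]
    rw [hcolM b]
    simp

end Pool.Agent.N844.QP
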