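import Pool.Agent.N844.QP.Gauss

/-!
The number of zeros of a quadratic form `a₁ y₁² + a₂ y₂² + a₃ y₃² + a₄ y₄² + (a u² + 2 b u v + c v²)`
over a finite field, and of the intersection of two such forms.
-/

set_option autoImplicit false

namespace Pool.Agent.N844.QP

open Finset

variable {k : Type*} [Field k] [Fintype k] [DecidableEq k]

/-- six coordinates -/
abbrev K6 (k : Type*) : Type _ := k × k × k × k × k × k

/-- the coefficients of a form -/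
structure Co (k : Type*) where
  a1 : k
  a2 : k
  a3 : k
  a4 : k
  a : k
  b : k
  c : k

/-- the value of the form -/
def Co.ev (Q : Co k) (y : K6 k) : k :=
  Q.a1 * y.1 ^ 2 + Q.a2 * y.2.1 ^ 2 + Q.a3 * y.2.2.1 ^ 2 + Q.a4 * y.2.2.2.1 ^ 2 +
    (Q.a * y.2.2.2.2.1 ^ 2 + 2 * Q.b * (y.2.2.2.2.1 * y.2.2.2.2.2) + Q.c * y.2.2.2.2.2 ^ 2)

/-- the linear combination `Q + x R` -/
def Co.lin (Q R : Co k) (x : k) : Co k :=
  ⟨Q.a1 + x * R.a1, Q.a2 + x * R.a2, Q.a3 + x * R.a3, Q.a4 + x * R.a4, Q.a + x * R.a,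
    Q.b + x * R.b, Q.c + x * R.c⟩

lemma Co.lin_ev (Q R : Co k) (x : k) (y : K6 k) : (Q.lin R x).ev y = Q.ev y + x * R.ev y := by
  unfold Co.lin Co.ev
  ring

/-- the multiple -/
def Co.sm (Q : Co k) (x : k) : Co k :=
  ⟨x * Q.a1, x * Q.a2, x * Q.a3, x * Q.a4, x * Q.a, x * Q.b, x * Q.c⟩

lemma Co.sm_ev (Q : Co k) (x : k) (y : K6 k) : (Q.sm x).ev y = x * Q.ev y := by
  unfold Co.sm Co.ev
  ring

/-- minus the discriminant -/
def Co.dis (Q : Co k) : k := Q.a1 * Q.a2 * Q.a3 * Q.a4 * (Q.b ^ 2 - Q.a * Q.c)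

variable {ψ : AddChar k ℂ}

lemma sum_split {α β : Type*} [Fintype α] [Fintype β] (f : α → ℂ) (g : β → ℂ) :
    ∑ p : α × β, f p.1 * g p.2 = (∑ x, f x) * ∑ y, g y := by
  rw [Fintype.sum_prod_type, Finset.sum_mul_sum]

/-- the Gauss sum is a product -/
lemma gauss_prod (Q : Co k) : ∑ y : K6 k, ψ (Q.ev y) =
    (∑ x, ψ (Q.a1 * x ^ 2)) * ((∑ x, ψ (Q.a2 * x ^ 2)) * ((∑ x, ψ (Q.a3 * x ^ 2)) *
      ((∑ x, ψ (Q.a4 * x ^ 2)) *
      ∑ u, ∑ v, ψ (Q.a * u ^ 2 + 2 * Q.b * (u * v) + Q.c * v ^ 2)))) := by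
  rw [← Fintype.sum_prod_type' (fun u v => ψ (Q.a * u ^ 2 + 2 * Q.b * (u * v) + Q.c * v ^ 2)),
    ← sum_split, ← sum_split, ← sum_split, ← sum_split]
  refine Finset.sum_congr rfl fun y _ => ?_
  unfold Co.ev
  simp only [AddChar.map_add_eq_mul]
  ring

/-- the Gauss sum of a unary form, all cases -/
lemma un_all (hk : ringChar k ≠ 2) (hψ : ψ.IsPrimitive) (a : k) {x : k} (hx : x ≠ 0) :
    ∑ y : k, ψ (x * a * y ^ 2) =
      if a = 0 then (Fintype.card k : ℂ) else chi k x * (chi k a * gaussSum (chi k) ψ) := by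
  split_ifs with h
  · subst h
    simp
  · rw [un hk hψ (mul_ne_zero hx h), map_mul, mul_assoc]

/-- the forms with radical of dimension at most one -/
structure Co.Ok (Q : Co k) : Prop where
  h12 : Q.a1 ≠ 0 ∨ Q.a2 ≠ 0
  h13 : Q.a1 ≠ 0 ∨ Q.a3 ≠ 0
  h14 : Q.a1 ≠ 0 ∨ Q.a4 ≠ 0
  h23 : Q.a2 ≠ 0 ∨ Q.a3 ≠ 0
  h24 : Q.a2 ≠ 0 ∨ Q.a4 ≠ 0
  h34 : Q.a3 ≠ 0 ∨ Q.a4 ≠ 0
  b1 : Q.a1 = 0 → Q.b ^ 2 - Q.a * Q.c ≠ 0
  b2 : Q.a2 = 0 → Q.b ^ 2 - Q.a * Q.c ≠ 0
  b3 : Q.a3 = 0 → Q.b ^ 2 - Q.a * Q.c ≠ 0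
  b4 : Q.a4 = 0 → Q.b ^ 2 - Q.a * Q.c ≠ 0
  ba : Q.b ^ 2 - Q.a * Q.c = 0 → Q.a ≠ 0

lemma chi_cases {x : k} (hx : x ≠ 0) : chi k x ^ 2 = 1 := by
  rw [pow_two, chi_mul_self hx]

/-- the Gauss sums of the multiples -/
lemma gauss_mul (hk : ringChar k ≠ 2) (hψ : ψ.IsPrimitive) (Q : Co k) (hQ : Q.Ok) :
    ∃ w : ℂ, ∀ x : k, x ≠ 0 → ∑ y : K6 k, ψ (x * Q.ev y) =
      chi k Q.dis * (Fintype.card k : ℂ) ^ 3 + chi k x * w := by
  have h0 : ∀ x : k, ∑ y : K6 k, ψ (x * Q.ev y) = ∑ y : K6 k, ψ ((Q.sm x).ev y) := fun x =>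
    Finset.sum_congr rfl fun y _ => by rw [Co.sm_ev]
  have hB : ∀ x : k, x ≠ 0 → Q.b ^ 2 - Q.a * Q.c ≠ 0 →
      ∑ u, ∑ v, ψ (x * Q.a * u ^ 2 + 2 * (x * Q.b) * (u * v) + x * Q.c * v ^ 2) =
        chi k (Q.b ^ 2 - Q.a * Q.c) * Fintype.card k := by
    intro x hx hb
    have e : (x * Q.b) ^ 2 - x * Q.a * (x * Q.c) = x * x * (Q.b ^ 2 - Q.a * Q.c) := by ring
    rw [bin hk hψ (by rw [e]; exact mul_ne_zero (mul_ne_zero hx hx) hb), e, map_mul, map_mul,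
      chi_mul_self hx, one_mul]
  have hB0 : ∀ x : k, x ≠ 0 → Q.b ^ 2 - Q.a * Q.c = 0 →
      ∑ u, ∑ v, ψ (x * Q.a * u ^ 2 + 2 * (x * Q.b) * (u * v) + x * Q.c * v ^ 2) =
        chi k x * (chi k Q.a * gaussSum (chi k) ψ * Fintype.card k) := by
    intro x hx hb
    rw [bin0 hk hψ (mul_ne_zero hx (hQ.ba hb)) (by linear_combination x ^ 2 * hb), map_mul]
    ring
  set g := gaussSum (chi k) ψ with hg
  set q : ℂ := (Fintype.card k : ℂ) with hq
  have hg4 : g ^ 4 = q ^ 2 := g_four hk hψ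
  have hdis : chi k Q.dis = chi k Q.a1 * chi k Q.a2 * chi k Q.a3 * chi k Q.a4 *
      chi k (Q.b ^ 2 - Q.a * Q.c) := by
    unfold Co.dis
    simp only [map_mul]
  by_cases hb : Q.b ^ 2 - Q.a * Q.c = 0
  · have h1 : Q.a1 ≠ 0 := fun h => hQ.b1 h hb
    have h2 : Q.a2 ≠ 0 := fun h => hQ.b2 h hb
    have h3 : Q.a3 ≠ 0 := fun h => hQ.b3 h hb
    have h4 : Q.a4 ≠ 0 := fun h => hQ.b4 h hb
    refine ⟨chi k Q.a1 * chi k Q.a2 * chi k Q.a3 * chi k Q.a4 * chi k Q.a * g ^ 5 * q, ?_⟩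
    intro x hx
    rw [h0, gauss_prod]
    change (∑ y, ψ (x * Q.a1 * y ^ 2)) * ((∑ y, ψ (x * Q.a2 * y ^ 2)) *
      ((∑ y, ψ (x * Q.a3 * y ^ 2)) * ((∑ y, ψ (x * Q.a4 * y ^ 2)) *
      ∑ u, ∑ v, ψ (x * Q.a * u ^ 2 + 2 * (x * Q.b) * (u * v) + x * Q.c * v ^ 2)))) = _
    rw [un_all hk hψ _ hx, un_all hk hψ _ hx, un_all hk hψ _ hx, un_all hk hψ _ hx, if_neg h1,
      if_neg h2, if_neg h3, if_neg h4, hB0 x hx hb, hdis, hb, MulChar.map_zero]
    have hx2 := chi_cases hx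
    linear_combination (chi k x ^ 3 * chi k Q.a1 * chi k Q.a2 * chi k Q.a3 * chi k Q.a4 *
      chi k Q.a * g ^ 5 * q + chi k x * chi k Q.a1 * chi k Q.a2 * chi k Q.a3 * chi k Q.a4 *
      chi k Q.a * g ^ 5 * q) * hx2
  · have hE : ∀ x : k, x ≠ 0 → ∑ y : K6 k, ψ (x * Q.ev y) =
        (if Q.a1 = 0 then q else chi k x * (chi k Q.a1 * g)) *
        ((if Q.a2 = 0 then q else chi k x * (chi k Q.a2 * g)) *
        ((if Q.a3 = 0 then q else chi k x * (chi k Q.a3 * g)) *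
        ((if Q.a4 = 0 then q else chi k x * (chi k Q.a4 * g)) *
        (chi k (Q.b ^ 2 - Q.a * Q.c) * q)))) := by
      intro x hx
      rw [h0, gauss_prod]
      change (∑ y, ψ (x * Q.a1 * y ^ 2)) * ((∑ y, ψ (x * Q.a2 * y ^ 2)) *
        ((∑ y, ψ (x * Q.a3 * y ^ 2)) * ((∑ y, ψ (x * Q.a4 * y ^ 2)) *
        ∑ u, ∑ v, ψ (x * Q.a * u ^ 2 + 2 * (x * Q.b) * (u * v) + x * Q.c * v ^ 2)))) = _
      rw [un_all hk hψ _ hx, un_all hk hψ _ hx, un_all hk hψ _ hx, un_all hk hψ _ hx, hB x hx hb]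
    by_cases z1 : Q.a1 = 0
    · have h2 : Q.a2 ≠ 0 := hQ.h12.resolve_left (not_not.2 z1)
      have h3 : Q.a3 ≠ 0 := hQ.h13.resolve_left (not_not.2 z1)
      have h4 : Q.a4 ≠ 0 := hQ.h14.resolve_left (not_not.2 z1)
      refine ⟨(chi k Q.a2 * chi k Q.a3 * chi k Q.a4 * chi k (Q.b ^ 2 - Q.a * Q.c) * g ^ 3 * q ^ 2), ?_⟩
      intro x hx
      rw [hE x hx, if_pos z1, if_neg h2, if_neg h3, if_neg h4, hdis, z1, MulChar.map_zero]
      have hx2 := chi_cases hx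
      linear_combination (chi k x * (chi k Q.a2 * chi k Q.a3 * chi k Q.a4 * chi k (Q.b ^ 2 - Q.a * Q.c) * g ^ 3 * q ^ 2)) * hx2
    by_cases z2 : Q.a2 = 0
    · have h1 : Q.a1 ≠ 0 := hQ.h12.resolve_right (not_not.2 z2)
      have h3 : Q.a3 ≠ 0 := hQ.h23.resolve_left (not_not.2 z2)
      have h4 : Q.a4 ≠ 0 := hQ.h24.resolve_left (not_not.2 z2)
      refine ⟨(chi k Q.a1 * chi k Q.a3 * chi k Q.a4 * chi k (Q.b ^ 2 - Q.a * Q.c) * g ^ 3 * q ^ 2), ?_⟩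
      intro x hx
      rw [hE x hx, if_neg h1, if_pos z2, if_neg h3, if_neg h4, hdis, z2, MulChar.map_zero]
      have hx2 := chi_cases hx
      linear_combination (chi k x * (chi k Q.a1 * chi k Q.a3 * chi k Q.a4 * chi k (Q.b ^ 2 - Q.a * Q.c) * g ^ 3 * q ^ 2)) * hx2
    by_cases z3 : Q.a3 = 0
    · have h1 : Q.a1 ≠ 0 := hQ.h13.resolve_right (not_not.2 z3)
      have h2 : Q.a2 ≠ 0 := hQ.h23.resolve_right (not_not.2 z3)
      have h4 : Q.a4 ≠ 0 := hQ.h34.resolve_left (not_not.2 z3)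
      refine ⟨(chi k Q.a1 * chi k Q.a2 * chi k Q.a4 * chi k (Q.b ^ 2 - Q.a * Q.c) * g ^ 3 * q ^ 2), ?_⟩
      intro x hx
      rw [hE x hx, if_neg h1, if_neg h2, if_pos z3, if_neg h4, hdis, z3, MulChar.map_zero]
      have hx2 := chi_cases hx
      linear_combination (chi k x * (chi k Q.a1 * chi k Q.a2 * chi k Q.a4 * chi k (Q.b ^ 2 - Q.a * Q.c) * g ^ 3 * q ^ 2)) * hx2
    by_cases z4 : Q.a4 = 0
    · have h1 : Q.a1 ≠ 0 := hQ.h14.resolve_right (not_not.2 z4)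
      have h2 : Q.a2 ≠ 0 := hQ.h24.resolve_right (not_not.2 z4)
      have h3 : Q.a3 ≠ 0 := hQ.h34.resolve_right (not_not.2 z4)
      refine ⟨(chi k Q.a1 * chi k Q.a2 * chi k Q.a3 * chi k (Q.b ^ 2 - Q.a * Q.c) * g ^ 3 * q ^ 2), ?_⟩
      intro x hx
      rw [hE x hx, if_neg h1, if_neg h2, if_neg h3, if_pos z4, hdis, z4, MulChar.map_zero]
      have hx2 := chi_cases hx
      linear_combination (chi k x * (chi k Q.a1 * chi k Q.a2 * chi k Q.a3 * chi k (Q.b ^ 2 - Q.a * Q.c) * g ^ 3 * q ^ 2)) * hx2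
    refine ⟨0, ?_⟩
    intro x hx
    rw [hE x hx, if_neg z1, if_neg z2, if_neg z3, if_neg z4, hdis]
    have hx2 := chi_cases hx
    linear_combination (chi k x ^ 4 * chi k Q.a1 * chi k Q.a2 * chi k Q.a3 * chi k Q.a4 *
      chi k (Q.b ^ 2 - Q.a * Q.c) * q) * hg4 + ((chi k x ^ 2 + 1) * chi k Q.a1 * chi k Q.a2 *
      chi k Q.a3 * chi k Q.a4 * chi k (Q.b ^ 2 - Q.a * Q.c) * q ^ 3) * hx2

lemma exists_psi : ∃ ψ : AddChar k ℂ, ψ.IsPrimitive :=
  ⟨_, AddChar.FiniteField.primitiveChar_to_Complex_isPrimitive k⟩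

/-- the sum over the nonzero elements of the quadratic character -/
lemma sum_chi (hk : ringChar k ≠ 2) : ∑ x ∈ univ.filter (fun x : k => x ≠ 0), chi k x = 0 := by
  have h := MulChar.sum_eq_zero_of_ne_one (chi_ne_one (k := k) hk)
  rw [Finset.sum_filter]
  refine Eq.trans (Finset.sum_congr rfl fun x _ => ?_) h
  by_cases hx : x = 0
  · subst hx
    rw [if_neg (by simp), MulChar.map_zero]
  · rw [if_pos hx]

lemma card_ne : ((univ.filter (fun x : k => x ≠ 0)).card : ℂ) = (Fintype.card k : ℂ) - 1 := by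
  have h : univ.filter (fun x : k => x ≠ 0) = univ.erase 0 := by
    ext x; simp
  rw [h, Finset.card_erase_of_mem (mem_univ _), Finset.card_univ,
    Nat.cast_sub Fintype.card_pos]
  simp

/-- the number of zeros of a form -/
lemma zeros (hk : ringChar k ≠ 2) (Q : Co k) (hQ : Q.Ok) :
    (((univ.filter fun y : K6 k => Q.ev y = 0).card : ℤ)) =
      (Fintype.card k : ℤ) ^ 5 +
        quadraticChar k Q.dis * ((Fintype.card k : ℤ) - 1) * (Fintype.card k : ℤ) ^ 2 := by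
  obtain ⟨ψ, hψ⟩ := exists_psi (k := k)
  obtain ⟨w, hw⟩ := gauss_mul hk hψ Q hQ
  have h1 : ∑ x : k, ∑ y : K6 k, ψ (x * Q.ev y) =
      (Fintype.card k : ℂ) * ((univ.filter fun y : K6 k => Q.ev y = 0).card : ℂ) := by
    rw [Finset.sum_comm]
    have h2 : ∀ y : K6 k, ∑ x : k, ψ (x * Q.ev y) =
        if Q.ev y = 0 then (Fintype.card k : ℂ) else 0 := by
      intro y
      simp_rw [mul_comm _ (Q.ev y)]
      exact sum_psi_mul hψ _
    simp_rw [h2]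
    rw [← Finset.sum_filter, Finset.sum_const, nsmul_eq_mul, mul_comm]
  have h2 : ∑ x : k, ∑ y : K6 k, ψ (x * Q.ev y) = (Fintype.card k : ℂ) ^ 6 +
      ((Fintype.card k : ℂ) - 1) * (chi k Q.dis * (Fintype.card k : ℂ) ^ 3) := by
    rw [← Finset.sum_filter_add_sum_filter_not univ (fun x : k => x ≠ 0)]
    rw [Finset.sum_congr rfl fun x hx => hw x (Finset.mem_filter.1 hx).2]
    rw [Finset.sum_add_distrib, Finset.sum_const, nsmul_eq_mul, card_ne, ← Finset.sum_mul,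
      sum_chi hk, zero_mul, add_zero]
    have h3 : univ.filter (fun x : k => ¬ x ≠ 0) = {0} := by
      ext x; simp
    rw [h3, Finset.sum_singleton]
    simp only [zero_mul, AddChar.map_zero_eq_one, Finset.sum_const, Finset.card_univ, nsmul_eq_mul,
      mul_one, Fintype.card_prod]
    push_cast
    ring
  rw [h1] at h2
  have hq : (Fintype.card k : ℂ) ≠ 0 := by
    exact_mod_cast Fintype.card_ne_zero
  have h3 : ((univ.filter fun y : K6 k => Q.ev y = 0).card : ℂ) = (Fintype.card k : ℂ) ^ 5 +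
      chi k Q.dis * ((Fintype.card k : ℂ) - 1) * (Fintype.card k : ℂ) ^ 2 := by
    apply mul_left_cancel₀ hq
    rw [h2]
    ring
  rw [chi_apply] at h3
  exact_mod_cast h3

/-- counting by a pencil -/
lemma pencil_count (Q R : Co k) :
    (Fintype.card k : ℤ) * ((univ.filter fun y : K6 k => Q.ev y = 0 ∧ R.ev y = 0).card : ℤ) +
      (Fintype.card k : ℤ) ^ 6 =
      ∑ x : k, ((univ.filter fun y : K6 k => (Q.lin R x).ev y = 0).card : ℤ) +
      ((univ.filter fun y : K6 k => R.ev y = 0).card : ℤ) := by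
  simp_rw [Finset.card_filter]
  push_cast
  rw [Finset.sum_comm, Finset.mul_sum]
  have h6 : (Fintype.card k : ℤ) ^ 6 = ∑ _y : K6 k, (1 : ℤ) := by
    rw [Finset.sum_const, Finset.card_univ]
    simp only [Fintype.card_prod, nsmul_eq_mul, mul_one]
    push_cast
    ring
  rw [h6, ← Finset.sum_add_distrib, ← Finset.sum_add_distrib]
  refine Finset.sum_congr rfl fun y _ => ?_
  simp_rw [Co.lin_ev]
  by_cases hR : R.ev y = 0
  · rw [hR]
    by_cases hQ : Q.ev y = 0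
    · rw [hQ]
      simp
    · simp [hQ]
  · have h1 : ∀ x : k, (Q.ev y + x * R.ev y = 0) ↔ x = -(Q.ev y) / R.ev y := by
      intro x
      rw [eq_div_iff hR]
      constructor
      · intro h; linear_combination h
      · intro h; linear_combination h
    simp_rw [h1]
    simp [hR]

/-- the number of common zeros of a pencil -/
theorem count (hk : ringChar k ≠ 2) (Q R : Co k) (hR : R.Ok) (h : ∀ x : k, (Q.lin R x).Ok) :
    ((univ.filter fun y : K6 k => Q.ev y = 0 ∧ R.ev y = 0).card : ℤ) =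
      (Fintype.card k : ℤ) ^ 4 + (Fintype.card k : ℤ) * ((Fintype.card k : ℤ) - 1) *
        (∑ x : k, quadraticChar k (Q.lin R x).dis + quadraticChar k R.dis) := by
  have h1 := pencil_count Q R
  rw [zeros hk R hR, Finset.sum_congr rfl fun x _ => zeros hk (Q.lin R x) (h x)] at h1
  rw [Finset.sum_add_distrib, Finset.sum_const, ← Finset.sum_mul, ← Finset.sum_mul,
    Finset.card_univ, nsmul_eq_mul] at h1
  have hq : (Fintype.card k : ℤ) ≠ 0 := by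
    exact_mod_cast Fintype.card_ne_zero
  apply mul_left_cancel₀ hq
  linear_combination h1

end Pool.Agent.N844.QP
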