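import Pool.Agent.N844.QP.Sym
import Pool.Agent.N844.QP.Zeros

/-!
The number of points of an intersection of two quadrics in `2 g + 2` variables over a finite field.
-/

set_option autoImplicit false

namespace Pool.Agent.N844.QP

open Finset Matrix Polynomial

variable {k : Type*} [Field k] [Fintype k] [DecidableEq k] {ψ : AddChar k ℂ}

omit [Fintype k] [DecidableEq k] in
lemma psi_sum {ι : Type*} (s : Finset ι) (f : ι → k) : ψ (∑ i ∈ s, f i) = ∏ i ∈ s, ψ (f i) := by
  classical
  induction s using Finset.induction_on with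
  | empty => simp
  | insert a s ha ih => rw [Finset.sum_insert ha, Finset.prod_insert ha,
      AddChar.map_add_eq_mul, ih]

/-- the Gauss sum of a diagonal form -/
lemma gauss_diag {N : ℕ} (w : Fin N → k) :
    ∑ y : Fin N → k, ψ (∑ i, w i * y i ^ 2) = ∏ i, ∑ x : k, ψ (w i * x ^ 2) := by
  rw [Finset.prod_univ_sum, Fintype.piFinset_univ]
  refine Finset.sum_congr rfl fun y _ => ?_
  exact psi_sum _ _

lemma g_two (hk : ringChar k ≠ 2) (hψ : ψ.IsPrimitive) :
    gaussSum (chi k) ψ ^ 2 = chi k (-1) * (Fintype.card k : ℂ) :=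
  gaussSum_sq (chi_ne_one hk) chi_quad hψ

lemma chi_unit_pow_even {x : k} (hx : x ≠ 0) (g : ℕ) : chi k x ^ (2 * g) = 1 := by
  rw [pow_mul, chi_cases hx, one_pow]

/-- the multiplied Gauss sums of a diagonal form in `2 g + 2` variables -/
lemma gauss_gen (hk : ringChar k ≠ 2) (hψ : ψ.IsPrimitive) (g : ℕ) (w : Fin (2 * g + 2) → k)
    (hw : ∀ i j, w i = 0 → w j = 0 → i = j) :
    ∃ c : ℂ, ∀ t : k, t ≠ 0 → ∑ y : Fin (2 * g + 2) → k, ψ (t * ∑ i, w i * y i ^ 2) =
      chi k ((-1) ^ (g + 1) * ∏ i, w i) * (Fintype.card k : ℂ) ^ (g + 1) + chi k t * c := by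
  have h0 : ∀ t : k, ∑ y : Fin (2 * g + 2) → k, ψ (t * ∑ i, w i * y i ^ 2) =
      ∏ i, ∑ x : k, ψ ((t * w i) * x ^ 2) := by
    intro t
    rw [← gauss_diag]
    refine Finset.sum_congr rfl fun y _ => ?_
    rw [Finset.mul_sum]
    simp_rw [mul_assoc]
  by_cases hz : ∃ i, w i = 0
  · obtain ⟨i, hi⟩ := hz
    have hj : ∀ j ∈ univ.erase i, w j ≠ 0 := fun j hj h =>
      (Finset.ne_of_mem_erase hj) (hw j i h hi)
    refine ⟨(Fintype.card k : ℂ) * ∏ j ∈ univ.erase i, (chi k (w j) * gaussSum (chi k) ψ),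
      fun t ht => ?_⟩
    have h1 : ∏ i, w i = 0 := Finset.prod_eq_zero (mem_univ i) hi
    rw [h0, h1, mul_zero ((-1 : k) ^ (g + 1)), MulChar.map_zero, zero_mul, zero_add,
      ← Finset.mul_prod_erase univ _ (mem_univ i), hi]
    have h2 : ∑ x : k, ψ (t * 0 * x ^ 2) = (Fintype.card k : ℂ) := by
      simp only [mul_zero, zero_mul, AddChar.map_zero_eq_one, Finset.sum_const, Finset.card_univ,
        nsmul_eq_mul, mul_one]
    have h3 : ∏ j ∈ univ.erase i, ∑ x : k, ψ (t * w j * x ^ 2) =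
        ∏ j ∈ univ.erase i, (chi k t * (chi k (w j) * gaussSum (chi k) ψ)) := by
      refine Finset.prod_congr rfl fun j hj' => ?_
      rw [un hk hψ (mul_ne_zero ht (hj j hj')), map_mul]
      ring
    rw [h2, h3, Finset.prod_mul_distrib, Finset.prod_const, Finset.card_erase_of_mem (mem_univ _),
      Finset.card_univ, Fintype.card_fin]
    have h4 : chi k t ^ (2 * g + 2 - 1) = chi k t := by
      rw [show 2 * g + 2 - 1 = 2 * g + 1 by omega, pow_succ, chi_unit_pow_even ht, one_mul]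
    rw [h4]
    ring
  · push Not at hz
    refine ⟨0, fun t ht => ?_⟩
    rw [h0, mul_zero, add_zero]
    have h3 : ∏ j, ∑ x : k, ψ (t * w j * x ^ 2) =
        ∏ j, ((chi k t * gaussSum (chi k) ψ) * chi k (w j)) := by
      refine Finset.prod_congr rfl fun j _ => ?_
      rw [un hk hψ (mul_ne_zero ht (hz j)), map_mul]
      ring
    have h4 : (chi k t * gaussSum (chi k) ψ) ^ (2 * g + 2) =
        (chi k (-1) * (Fintype.card k : ℂ)) ^ (g + 1) := by
      rw [show 2 * g + 2 = 2 * (g + 1) by ring, mul_pow, chi_unit_pow_even ht, one_mul, pow_mul,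
        g_two hk hψ]
    rw [h3, Finset.prod_mul_distrib, Finset.prod_const, Finset.card_univ, Fintype.card_fin, h4,
      mul_pow, map_mul, map_pow, map_prod]
    ring

/-- the number of zeros of a diagonal form in `2 g + 2` variables of corank at most one -/
lemma zeros_gen (hk : ringChar k ≠ 2) (g : ℕ) (w : Fin (2 * g + 2) → k)
    (hw : ∀ i j, w i = 0 → w j = 0 → i = j) :
    ((univ.filter fun y : Fin (2 * g + 2) → k => ∑ i, w i * y i ^ 2 = 0).card : ℤ) =
      (Fintype.card k : ℤ) ^ (2 * g + 1) +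
        quadraticChar k ((-1) ^ (g + 1) * ∏ i, w i) * ((Fintype.card k : ℤ) - 1) *
          (Fintype.card k : ℤ) ^ g := by
  obtain ⟨ψ, hψ⟩ := exists_psi (k := k)
  obtain ⟨c, hc⟩ := gauss_gen hk hψ g w hw
  have h1 : ∑ x : k, ∑ y : Fin (2 * g + 2) → k, ψ (x * ∑ i, w i * y i ^ 2) =
      (Fintype.card k : ℂ) *
        ((univ.filter fun y : Fin (2 * g + 2) → k => ∑ i, w i * y i ^ 2 = 0).card : ℂ) := by
    rw [Finset.sum_comm]
    have h2 : ∀ y : Fin (2 * g + 2) → k, ∑ x : k, ψ (x * ∑ i, w i * y i ^ 2) =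
        if ∑ i, w i * y i ^ 2 = 0 then (Fintype.card k : ℂ) else 0 := by
      intro y
      simp_rw [mul_comm _ (∑ i, w i * y i ^ 2)]
      exact sum_psi_mul hψ _
    simp_rw [h2]
    rw [← Finset.sum_filter, Finset.sum_const, nsmul_eq_mul, mul_comm]
  have h2 : ∑ x : k, ∑ y : Fin (2 * g + 2) → k, ψ (x * ∑ i, w i * y i ^ 2) =
      (Fintype.card k : ℂ) ^ (2 * g + 2) + ((Fintype.card k : ℂ) - 1) *
        (chi k ((-1) ^ (g + 1) * ∏ i, w i) * (Fintype.card k : ℂ) ^ (g + 1)) := by
    rw [← Finset.sum_filter_add_sum_filter_not univ (fun x : k => x ≠ 0)]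
    rw [Finset.sum_congr rfl fun x hx => hc x (Finset.mem_filter.1 hx).2]
    rw [Finset.sum_add_distrib, Finset.sum_const, nsmul_eq_mul, card_ne, ← Finset.sum_mul,
      sum_chi hk, zero_mul, add_zero]
    have h3 : univ.filter (fun x : k => ¬ x ≠ 0) = {0} := by
      ext x; simp
    rw [h3, Finset.sum_singleton]
    simp only [zero_mul, AddChar.map_zero_eq_one, Finset.sum_const, Finset.card_univ, nsmul_eq_mul,
      mul_one, Fintype.card_fun, Fintype.card_fin]
    push_cast
    ring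
  rw [h1] at h2
  have hq : (Fintype.card k : ℂ) ≠ 0 := by
    exact_mod_cast Fintype.card_ne_zero
  have h3 : ((univ.filter fun y : Fin (2 * g + 2) → k => ∑ i, w i * y i ^ 2 = 0).card : ℂ) =
      (Fintype.card k : ℂ) ^ (2 * g + 1) + chi k ((-1) ^ (g + 1) * ∏ i, w i) *
        ((Fintype.card k : ℂ) - 1) * (Fintype.card k : ℂ) ^ g := by
    apply mul_left_cancel₀ hq
    rw [h2]
    ring
  rw [chi_apply] at h3
  exact_mod_cast h3

omit [Fintype k] [DecidableEq k] in
lemma qf_conj {N : ℕ} (P M : Matrix (Fin N) (Fin N) k) (y : Fin N → k) :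
    qf (Pᵀ * M * P) y = qf M (P *ᵥ y) := by
  unfold qf
  rw [← mulVec_mulVec, ← mulVec_mulVec, dotProduct_mulVec, vecMul_transpose]

omit [Fintype k] [DecidableEq k] in
lemma qf_diag {N : ℕ} (w y : Fin N → k) : qf (diagonal w) y = ∑ i, w i * y i ^ 2 := by
  unfold qf dotProduct
  refine Finset.sum_congr rfl fun i _ => ?_
  rw [mulVec_diagonal]
  ring

/-- the number of zeros of a form of corank at most one -/
theorem zeros_sym (hk : ringChar k ≠ 2) (g : ℕ)
    (M : Matrix (Fin (2 * g + 2)) (Fin (2 * g + 2)) k) (hM : M.IsSymm)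
    (hc : ∀ P : Matrix (Fin (2 * g + 2)) (Fin (2 * g + 2)) k, IsUnit P.det →
      ∀ w : Fin (2 * g + 2) → k, Pᵀ * M * P = diagonal w → ∀ i j, w i = 0 → w j = 0 → i = j) :
    ((univ.filter fun y : Fin (2 * g + 2) → k => qf M y = 0).card : ℤ) =
      (Fintype.card k : ℤ) ^ (2 * g + 1) +
        quadraticChar k ((-1) ^ (g + 1) * M.det) * ((Fintype.card k : ℤ) - 1) *
          (Fintype.card k : ℤ) ^ g := by
  obtain ⟨P, hP, w, hw⟩ := diagonalize (Ring.two_ne_zero hk) M hM
  have hd : ∏ i, w i = P.det ^ 2 * M.det := by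
    rw [← det_diagonal, ← hw, det_mul, det_mul, det_transpose]
    ring
  have hP0 : P.det ≠ 0 := hP.ne_zero
  have h1 := zeros_gen hk g w (hc P hP w hw)
  have h2 : quadraticChar k ((-1) ^ (g + 1) * ∏ i, w i) =
      quadraticChar k ((-1) ^ (g + 1) * M.det) := by
    rw [hd, show (-1 : k) ^ (g + 1) * (P.det ^ 2 * M.det) =
      P.det ^ 2 * ((-1) ^ (g + 1) * M.det) by ring, map_mul, (quadraticChar_sq_one' hP0), one_mul]
  rw [h2] at h1
  rw [← h1]
  congr 1
  refine (Finset.card_bij (fun y _ => P *ᵥ y) ?_ ?_ ?_).symm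
  · intro y hy
    rw [Finset.mem_filter] at hy ⊢
    refine ⟨mem_univ _, ?_⟩
    rw [← qf_conj, hw, qf_diag]
    exact hy.2
  · intro y _ z _ h
    exact mulVec_injective_of_isUnit ((Matrix.isUnit_iff_isUnit_det _).2 hP) h
  · intro z hz
    refine ⟨P⁻¹ *ᵥ z, ?_, ?_⟩
    · rw [Finset.mem_filter] at hz ⊢
      refine ⟨mem_univ _, ?_⟩
      rw [← qf_diag, ← hw, qf_conj, mulVec_mulVec, mul_nonsing_inv _ hP, one_mulVec]
      exact hz.2
    · rw [mulVec_mulVec, mul_nonsing_inv _ hP, one_mulVec]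

/-- counting by a pencil -/
lemma pencil_fun {Y : Type*} [Fintype Y] (Q R : Y → k) :
    (Fintype.card k : ℤ) * ((univ.filter fun y : Y => Q y = 0 ∧ R y = 0).card : ℤ) +
      (Fintype.card Y : ℤ) =
      ∑ x : k, ((univ.filter fun y : Y => Q y + x * R y = 0).card : ℤ) +
      ((univ.filter fun y : Y => R y = 0).card : ℤ) := by
  simp_rw [Finset.card_filter]
  push_cast
  rw [Finset.sum_comm, Finset.mul_sum]
  have h6 : (Fintype.card Y : ℤ) = ∑ _y : Y, (1 : ℤ) := by
    rw [Finset.sum_const, Finset.card_univ]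
    simp
  rw [h6, ← Finset.sum_add_distrib, ← Finset.sum_add_distrib]
  refine Finset.sum_congr rfl fun y _ => ?_
  by_cases hR : R y = 0
  · rw [hR]
    by_cases hQ : Q y = 0
    · rw [hQ]
      simp
    · simp [hQ]
  · have h1 : ∀ x : k, (Q y + x * R y = 0) ↔ x = -(Q y) / R y := by
      intro x
      rw [eq_div_iff hR]
      constructor
      · intro h; linear_combination h
      · intro h; linear_combination h
    simp_rw [h1]
    simp [hR]

/-- the number of common zeros -/
theorem count_sym (hk : ringChar k ≠ 2) (g : ℕ)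
    (A B : Matrix (Fin (2 * (g + 1) + 2)) (Fin (2 * (g + 1) + 2)) k) (hA : A.IsSymm)
    (hB : B.IsSymm) (hA0 : A.det ≠ 0)
    (hf : ∀ x : k, (dp A B).eval x = 0 → (dp A B).derivative.eval x ≠ 0) :
    ((univ.filter fun y : Fin (2 * (g + 1) + 2) → k => qf B y = 0 ∧ qf A y = 0).card : ℤ) =
      (Fintype.card k : ℤ) ^ (2 * g + 2) + (Fintype.card k : ℤ) ^ g *
        ((Fintype.card k : ℤ) - 1) * (∑ x : k, quadraticChar k ((-1) ^ (g + 2) * (dp A B).eval x) +
          quadraticChar k ((-1) ^ (g + 2) * A.det)) := by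
  have h1 := pencil_fun (fun y => - qf B y) (fun y => qf A y)
  have e1 : ∀ x : k, (univ.filter fun y : Fin (2 * (g + 1) + 2) → k => - qf B y + x * qf A y = 0) =
      univ.filter fun y : Fin (2 * (g + 1) + 2) → k => qf (x • A - B) y = 0 := by
    intro x
    refine Finset.filter_congr fun y _ => ?_
    have : qf (x • A - B) y = - qf B y + x * qf A y := by
      unfold qf
      rw [sub_mulVec, smul_mulVec, dotProduct_sub, dotProduct_smul, smul_eq_mul]
      ring
    rw [this]
  have e2 : (univ.filter fun y : Fin (2 * (g + 1) + 2) → k => - qf B y = 0 ∧ qf A y = 0) =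
      univ.filter fun y : Fin (2 * (g + 1) + 2) → k => qf B y = 0 ∧ qf A y = 0 :=
    Finset.filter_congr fun y _ => by rw [neg_eq_zero]
  rw [e2] at h1
  simp_rw [e1] at h1
  have z1 : ∀ x : k, ((univ.filter fun y : Fin (2 * (g + 1) + 2) → k =>
      qf (x • A - B) y = 0).card : ℤ) = _ := fun x =>
    zeros_sym hk (g + 1) (x • A - B) ((hA.smul x).sub hB) (by
      intro P hP w hw i j hi hj
      by_cases h0 : (dp A B).eval x = 0
      · exact corank_one (hf x h0) hP hw i j hi hj
      · exfalso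
        apply h0
        rw [dp_eval]
        have hd : ∏ i, w i = P.det ^ 2 * (x • A - B).det := by
          rw [← det_diagonal, ← hw, det_mul, det_mul, det_transpose]
          ring
        have h2 : ∏ i, w i = 0 := Finset.prod_eq_zero (mem_univ i) hi
        rw [h2] at hd
        exact (mul_eq_zero.1 hd.symm).resolve_left (pow_ne_zero 2 hP.ne_zero))
  have z2 := zeros_sym hk (g + 1) A hA (by
      intro P hP w hw i j hi hj
      exfalso
      have hd : ∏ i, w i = P.det ^ 2 * A.det := by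
        rw [← det_diagonal, ← hw, det_mul, det_mul, det_transpose]
        ring
      have h2 : ∏ i, w i = 0 := Finset.prod_eq_zero (mem_univ i) hi
      rw [h2] at hd
      exact hA0 ((mul_eq_zero.1 hd.symm).resolve_left (pow_ne_zero 2 hP.ne_zero)))
  rw [z2, Finset.sum_congr rfl fun x _ => z1 x] at h1
  simp_rw [← dp_eval] at h1
  rw [Finset.sum_add_distrib, Finset.sum_const, ← Finset.sum_mul, ← Finset.sum_mul,
    Finset.card_univ, nsmul_eq_mul, Fintype.card_fun, Fintype.card_fin] at h1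
  have hq : (Fintype.card k : ℤ) ≠ 0 := by
    exact_mod_cast Fintype.card_ne_zero
  apply mul_left_cancel₀ hq
  push_cast at h1
  have e3 : (-1 : k) ^ (g + 1 + 1) = (-1) ^ (g + 2) := rfl
  rw [e3] at h1
  linear_combination h1

end Pool.Agent.N844.QP
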