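import Pool.Agent.N844.QP.SymCount
import Pool.Agent.N844.QP.Euler

/-!
The threefolds with two different twists.
-/

set_option autoImplicit false

namespace Pool.Agent.N844.QP

open Finset Matrix Polynomial
open scoped LinearAlgebra.Projectivization

section field

variable {k : Type*} [Field k]

/-- the sextic without its constant factor -/
def gg (d x : k) : k := (d * x ^ 2 - 1) * (d * x ^ 2 - 25) * (3 * d * x ^ 2 + 125)

variable [Fintype k] [DecidableEq k]


/-- the character sum of the elliptic curve -/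
def SE (m : k) : ℤ := ∑ t : k, quadraticChar k (cub m t)

lemma SE_sq {c : k} (hc : c ≠ 0) (m : k) : SE (c ^ 2 * m) = SE m := by
  unfold SE
  have hc2 : c ^ 2 ≠ 0 := pow_ne_zero 2 hc
  rw [← sum_lin (fun t => quadraticChar k (cub (c ^ 2 * m) t)) hc2 0]
  refine Finset.sum_congr rfl fun t _ => ?_
  rw [← chi_sq (pow_ne_zero 3 hc) (cub m t)]
  congr 1
  unfold cub
  ring

/-- the sum over the pencil -/
theorem sum_gg (hk : ringChar k ≠ 2) (h3 : (3 : k) ≠ 0) (h5 : (5 : k) ≠ 0) {m d : k} (hm : m ≠ 0)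
    (hd : d ≠ 0) :
    ∑ x : k, quadraticChar k (-50 * m * gg d x) + quadraticChar k (-150 * (m * d)) = SE m + SE (m * d) := by
  have e1 : ∑ x : k, quadraticChar k (-50 * m * gg d x) =
      ∑ w : k, quadraticChar k (-50 * m * ((w - 1) * (w - 25) * (3 * w + 125))) +
      ∑ w : k, quadraticChar k (w * (-50 * (m * d) * ((w - 1) * (w - 25) * (3 * w + 125)))) := by
    have h := sum_sq hk (fun w : k => quadraticChar k (-50 * m * ((d * w - 1) * (d * w - 25) *
      (3 * d * w + 125))))
    unfold gg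
    rw [h]
    simp_rw [add_mul, one_mul, Finset.sum_add_distrib]
    rw [add_comm]
    congr 1
    · rw [← sum_lin (fun w => quadraticChar k (-50 * m * ((w - 1) * (w - 25) * (3 * w + 125)))) hd 0]
      refine Finset.sum_congr rfl fun w _ => ?_
      congr 1
      ring
    · rw [← sum_lin (fun w => quadraticChar k (w * (-50 * (m * d) * ((w - 1) * (w - 25) * (3 * w + 125))))) hd 0]
      refine Finset.sum_congr rfl fun w _ => ?_
      rw [Int.cast_id, ← map_mul (quadraticChar k) w, ← chi_sq hd (w * _)]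
      congr 1
      ring
  have hmd : m * d ≠ 0 := mul_ne_zero hm hd
  have e2 : ∑ w : k, quadraticChar k (w * (-50 * (m * d) * ((w - 1) * (w - 25) * (3 * w + 125)))) =
      ∑ v : k, quadraticChar k (-50 * (m * d) * ((1 - v) * (1 - 25 * v) * (125 * v + 3))) -
        quadraticChar k (-150 * (m * d)) := by
    rw [sum_inv _ (by simp)]
    rw [← Finset.add_sum_erase univ (fun v : k => quadraticChar k (-50 * (m * d) * ((1 - v) * (1 - 25 * v) *
      (125 * v + 3)))) (mem_univ 0), ← Finset.add_sum_erase univ _ (mem_univ (0 : k))]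
    rw [if_pos rfl, zero_add]
    have e3 : (-50 * (m * d) * ((1 - 0) * (1 - 25 * 0) * (125 * 0 + 3)) : k) =
      -150 * (m * d) := by ring
    rw [e3, add_sub_cancel_left]
    refine Finset.sum_congr rfl fun v hv => ?_
    have hv0 : v ≠ 0 := Finset.ne_of_mem_erase hv
    rw [if_neg hv0, ← chi_sq (pow_ne_zero 2 hv0)]
    congr 1
    field_simp
    ring
  rw [e1, e2, S1 hk h3 h5 hm, S2 hk h3 h5 hmd]
  unfold SE
  ring

end field

/-- the number of points of the intersection of two quadrics in projective space -/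
noncomputable def numP {k : Type*} [Field k] {N : ℕ} (A B : Matrix (Fin N) (Fin N) k) : ℕ :=
  Nat.card {P : ℙ k (Fin N → k) // qf A P.rep = 0 ∧ qf B P.rep = 0}

variable {k : Type*} [Field k]

lemma qf_smul {N : ℕ} (A : Matrix (Fin N) (Fin N) k) (c : k) (y : Fin N → k) :
    qf A (c • y) = c ^ 2 * qf A y := by
  unfold qf
  rw [mulVec_smul, dotProduct_smul, smul_dotProduct, smul_eq_mul, smul_eq_mul]
  ring

lemma derivative_gg (c d x : k) (hf : (C (-c) * ((C d * X ^ 2 - 1) * (C d * X ^ 2 - 25) *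
    (C (3 * d) * X ^ 2 + 125)) : k[X]).eval x = 0) (h2 : (2 : k) ≠ 0) (h3 : (3 : k) ≠ 0)
    (h5 : (5 : k) ≠ 0) (hc : c ≠ 0) (hd : d ≠ 0) :
    (C (-c) * ((C d * X ^ 2 - 1) * (C d * X ^ 2 - 25) *
      (C (3 * d) * X ^ 2 + 125)) : k[X]).derivative.eval x ≠ 0 := by
  have e : (C (-c) * ((C d * X ^ 2 - 1) * (C d * X ^ 2 - 25) *
      (C (3 * d) * X ^ 2 + 125)) : k[X]).derivative.eval x =
      -c * (2 * d * x * (d * x ^ 2 - 25) * (3 * d * x ^ 2 + 125) +
        (d * x ^ 2 - 1) * (2 * d * x) * (3 * d * x ^ 2 + 125) +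
        (d * x ^ 2 - 1) * (d * x ^ 2 - 25) * (6 * d * x)) := by
    have e25 : (25 : k[X]) = C 25 := (map_ofNat (C : k →+* k[X]) 25).symm
    have e125 : (125 : k[X]) = C 125 := (map_ofNat (C : k →+* k[X]) 125).symm
    rw [e25, e125]
    simp only [derivative_mul, derivative_C, derivative_sub, derivative_add, derivative_pow,
      derivative_X, derivative_one, eval_add, eval_mul, eval_sub, eval_pow, eval_X, eval_C,
      eval_one, zero_mul, zero_add, mul_one, add_zero, sub_zero, map_natCast, eval_natCast]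
    push_cast
    ring
  have h0 : (d * x ^ 2 - 1) * (d * x ^ 2 - 25) * (3 * d * x ^ 2 + 125) = 0 := by
    have e25 : (25 : k[X]) = C 25 := (map_ofNat (C : k →+* k[X]) 25).symm
    have e125 : (125 : k[X]) = C 125 := (map_ofNat (C : k →+* k[X]) 125).symm
    rw [e25, e125] at hf
    simp only [eval_add, eval_mul, eval_sub, eval_pow, eval_X, eval_C, eval_one] at hf
    exact (mul_eq_zero.1 hf).resolve_left (neg_ne_zero.2 hc)
  rw [e]
  have hp : ∀ a b c : ℕ, ((2 : k) ^ a * 3 ^ b * 5 ^ c) ≠ 0 := fun a b c =>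
    mul_ne_zero (mul_ne_zero (pow_ne_zero _ h2) (pow_ne_zero _ h3)) (pow_ne_zero _ h5)
  have hx : x ≠ 0 := by
    rintro rfl
    have : ((2 : k) ^ 0 * 3 ^ 0 * 5 ^ 5) = 0 := by linear_combination h0
    exact hp 0 0 5 this
  have hmain : ∀ u : k, u ≠ 0 → -c * (2 * d * x * u) ≠ 0 := fun u hu =>
    mul_ne_zero (neg_ne_zero.2 hc) (mul_ne_zero (mul_ne_zero (mul_ne_zero h2 hd) hx) hu)
  rcases mul_eq_zero.1 h0 with h | h
  · rcases mul_eq_zero.1 h with h | h
    · have hu := hmain (-((2 : k) ^ 10 * 3 ^ 1 * 5 ^ 0)) (neg_ne_zero.2 (hp 10 1 0))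
      intro h1
      apply hu
      have ht : d * x ^ 2 = 1 := by linear_combination h
      rw [← h1]
      have e1 : 3 * d * x ^ 2 + 125 = 128 := by linear_combination 3 * ht
      rw [e1, ht]
      ring
    · have hu := hmain ((2 : k) ^ 6 * 3 ^ 1 * 5 ^ 2 * 1) (by
        rw [mul_one]; exact hp 6 1 2)
      intro h1
      apply hu
      have ht : d * x ^ 2 = 25 := by linear_combination h
      rw [← h1]
      have e1 : 3 * d * x ^ 2 + 125 = 200 := by linear_combination 3 * ht
      rw [e1, ht]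
      ring
  · intro h1
    have ht : 3 * (d * x ^ 2) = -125 := by linear_combination h
    have h9 : -c * (2 * d * x * ((2 : k) ^ 10 * 3 ^ 0 * 5 ^ 2)) = 0 := by
      have e1 : 3 * d * x ^ 2 + 125 = 0 := h
      rw [e1] at h1
      have h10 : -c * ((d * x ^ 2 - 1) * (d * x ^ 2 - 25) * (6 * d * x)) = 0 := by
        linear_combination h1
      have h11 : -c * ((3 * (d * x ^ 2) - 3) * (3 * (d * x ^ 2) - 75) * (6 * d * x)) = 0 := by
        linear_combination 9 * h10
      rw [ht] at h11
      have : (3 : k) * (-c * (2 * d * x * ((2 : k) ^ 10 * 3 ^ 0 * 5 ^ 2))) = 0 := by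
        linear_combination h11
      exact (mul_eq_zero.1 this).resolve_left h3
    exact hmain _ (hp 10 0 2) h9

end Pool.Agent.N844.QP
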